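import Pool.Agent.Lib.MP_79314c_pr.OneDim

open Finset

namespace Pool.Agent.Lib.MP_79314c_pr

/-- edge labels: `(true, x, y)` joins `(x,y)` to `(x+1,y)`, `(false, x, y)` joins it to `(x,y+1)` -/
abbrev E : Type := Bool × ℤ × ℤ

noncomputable def box (L : ℤ) : Finset E := univ ×ˢ (Ico (-L) L ×ˢ Ico (-L) L)

theorem mem_box {L : ℤ} {b : Bool} {x y : ℤ} :
    ((b, x, y) : E) ∈ box L ↔ (-L ≤ x ∧ x < L) ∧ (-L ≤ y ∧ y < L) := by
  simp [box]

def IsPot (ω : E → ℕ) (φ : ℤ → ℤ → ℤ) : Prop :=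
  (∀ x y, |φ (x + 1) y - φ x y| ≤ (ω (true, x, y) : ℤ)) ∧
  (∀ x y, |φ x (y + 1) - φ x y| ≤ (ω (false, x, y) : ℤ))

def Good (m t : ℤ) (ω : E → ℕ) : Prop := ∃ φ, IsPot ω φ ∧ φ 0 0 ≤ 0 ∧ t ≤ φ m 0

def Adm (L : ℤ) (ω : E → ℕ) : Prop := (∀ i, i ∉ box L → ω i = 0) ∧ ∀ i, ω i ≤ 2

noncomputable def row (L : ℤ) (ω : E → ℕ) (y : ℤ) : ℤ := ∑ x ∈ Ico (-L) L, (ω (true, x, y) : ℤ)

noncomputable def col (L : ℤ) (ω : E → ℕ) (x : ℤ) : ℤ := ∑ y ∈ Ico (-L) L, (ω (false, x, y) : ℤ)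

noncomputable def total (L : ℤ) (ω : E → ℕ) : ℕ := ∑ i ∈ box L, ω i

theorem sum_box {M : Type*} [AddCommMonoid M] (L : ℤ) (f : E → M) :
    ∑ i ∈ box L, f i = ∑ y ∈ Ico (-L) L, ∑ x ∈ Ico (-L) L, f (true, x, y) +
      ∑ y ∈ Ico (-L) L, ∑ x ∈ Ico (-L) L, f (false, x, y) := by
  rw [box, Finset.sum_product, Fintype.sum_bool, Finset.sum_product_right,
    Finset.sum_product_right]

theorem total_eq (L : ℤ) (ω : E → ℕ) :
    (total L ω : ℤ) = ∑ y ∈ Ico (-L) L, row L ω y + ∑ x ∈ Ico (-L) L, col L ω x := by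
  rw [total, Nat.cast_sum, sum_box]
  congr 1
  exact Finset.sum_comm

theorem row_nonneg (L : ℤ) (ω : E → ℕ) (y : ℤ) : 0 ≤ row L ω y :=
  Finset.sum_nonneg fun _ _ => Int.natCast_nonneg _

theorem col_nonneg (L : ℤ) (ω : E → ℕ) (x : ℤ) : 0 ≤ col L ω x :=
  Finset.sum_nonneg fun _ _ => Int.natCast_nonneg _

/-- the lower bound for a line at distance `|y|` -/
def R (r y : ℤ) : ℤ := 2 * max (4 * r + 2 - 4 * |y|) 0

/-- the least total weight -/
noncomputable def Cst (L r : ℤ) : ℤ := ∑ y ∈ Ico (-L) L, R r y + ∑ x ∈ Ico (-r) (r + 1), R r x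

theorem exists_outer {L : ℤ} {ω : E → ℕ} {φ : ℤ → ℤ → ℤ} (hs : Adm L ω)
    (hp : IsPot ω φ) :
    ∃ p, (∀ y, φ (-L) y = p ∧ φ L y = p) ∧ (∀ x, φ x (-L) = p ∧ φ x L = p) := by
  have z : ∀ b x y, ¬ ((-L ≤ x ∧ x < L) ∧ (-L ≤ y ∧ y < L)) → (ω (b, x, y) : ℤ) = 0 := by
    intro b x y h
    rw [hs.1 _ (by rw [mem_box]; exact h)]; rfl
  have c1 : ∀ y, φ L y = φ L L := fun y =>
    const_of (φ L) (fun k => (hp.2 L k).trans (z _ _ _ (by omega)).le) L y
  have c2 : ∀ x, φ x L = φ L L := fun x =>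
    const_of (fun x => φ x L) (fun k => (hp.1 k L).trans (z _ _ _ (by omega)).le) L x
  have c3 : ∀ y, φ (-L - 1) y = φ L L := fun y =>
    (const_of (φ (-L - 1)) (fun k => (hp.2 _ k).trans (z _ _ _ (by omega)).le) L y).trans (c2 _)
  have c4 : ∀ x, φ x (-L - 1) = φ L L := fun x =>
    (const_of (fun x => φ x (-L - 1))
      (fun k => (hp.1 k _).trans (z _ _ _ (by omega)).le) L x).trans (c1 _)
  refine ⟨φ L L, fun y => ⟨?_, c1 y⟩, fun x => ⟨?_, c2 x⟩⟩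
  · have h := (hp.1 (-L - 1) y).trans (z _ _ _ (by omega)).le
    rw [abs_nonpos_iff, sub_add_cancel, c3] at h
    omega
  · have h := (hp.2 x (-L - 1)).trans (z _ _ _ (by omega)).le
    rw [abs_nonpos_iff, sub_add_cancel, c4] at h
    omega

theorem structure_of_min {L r : ℤ} {ω : E → ℕ} {φ : ℤ → ℤ → ℤ} (hr : 0 ≤ r)
    (hL : 3 * r + 3 ≤ L) (hs : Adm L ω) (hp : IsPot ω φ) (h0 : φ 0 0 ≤ 0)
    (hm : 4 * r + 2 ≤ φ (2 * r + 2) 0) (hC : (total L ω : ℤ) ≤ Cst L r) :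
    (∀ y, ω (false, r + 1, y) = 0) ∧
    (∀ y, ω (true, r, y) + ω (true, r + 1, y) ≤ 2) ∧
    (∀ y, 0 ≤ y → y < L → (ω (true, r, y) : ℤ) = ∑ k ∈ Ico y L, (ω (false, r, k) : ℤ)) ∧
    (∀ y, -L ≤ y → y ≤ 0 → (ω (true, r, y) : ℤ) = ∑ k ∈ Ico (-L) y, (ω (false, r, k) : ℤ)) := by
  obtain ⟨p, hp1, hp2⟩ := exists_outer hs hp
  have two : ∀ i, (ω i : ℤ) ≤ 2 := fun i => by exact_mod_cast hs.2 i
  have lipv : ∀ x y, |φ x y - φ x 0| ≤ 2 * |y| := fun x y => by
    simpa using lip (φ x) 2 (fun k => (hp.2 x k).trans (two _)) 0 y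
  have liph : ∀ x x', |φ x 0 - φ x' 0| ≤ 2 * |x - x'| := fun x x' =>
    lip (fun x => φ x 0) 2 (fun k => (hp.1 k 0).trans (two _)) x' x
  have th : ∀ y i j, i ≤ j → |φ j y - φ i y| ≤ ∑ k ∈ Ico i j, (ω (true, k, y) : ℤ) :=
    fun y i j hij => tele_abs (fun x => φ x y) _ hij fun k _ _ => hp.1 k y
  have tv : ∀ x i j, i ≤ j → |φ x j - φ x i| ≤ ∑ k ∈ Ico i j, (ω (false, x, k) : ℤ) :=
    fun x i j hij => tele_abs (φ x) _ hij fun k _ _ => hp.2 x k
  -- column bound through an arbitrary height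
  have colb : ∀ x y, -L ≤ y → y ≤ L → 2 * |p - φ x y| ≤ col L ω x := by
    intro x y h1 h2
    have a1 := tv x (-L) y h1
    have a2 := tv x y L h2
    rw [(hp2 x).1, abs_sub_comm] at a1
    rw [(hp2 x).2] at a2
    rw [col, sum_split _ h1 h2]
    omega
  -- refined row bound
  have rowb : ∀ y, 2 * (4 * r + 2 - 4 * |y|) + (ω (true, r, y) : ℤ) + (ω (true, r + 1, y) : ℤ)
      - (φ (r + 1 + 1) y - φ r y) ≤ row L ω y := by
    intro y
    have a1 := th y (-L) 0 (by omega)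
    have a2 := th y 0 r hr
    have a3 := th y (r + 1 + 1) (2 * r + 2) (by omega)
    have a4 := th y (2 * r + 2) L (by omega)
    rw [(hp1 y).1] at a1
    rw [(hp1 y).2] at a4
    have b1 := lipv 0 y
    have b2 := lipv (2 * r + 2) y
    rw [row, sum_split _ (by omega : -L ≤ 0) (by omega : 0 ≤ L),
      sum_split _ hr (by omega : r ≤ L), sum_split _ (by omega : r ≤ r + 1) (by omega : r + 1 ≤ L),
      sum_one, sum_split _ (by omega : r + 1 ≤ r + 1 + 1) (by omega : r + 1 + 1 ≤ L), sum_one,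
      sum_split _ (by omega : r + 1 + 1 ≤ 2 * r + 2) (by omega : 2 * r + 2 ≤ L)]
    rw [abs_le] at a1 a2 a3 a4 b1 b2
    omega
  have e1 : ∀ y, |φ (r + 1) y - φ r y| ≤ (ω (true, r, y) : ℤ) := fun y => hp.1 r y
  have e2 : ∀ y, |φ (r + 1 + 1) y - φ (r + 1) y| ≤ (ω (true, r + 1, y) : ℤ) := fun y => hp.1 _ y
  have rowR : ∀ y ∈ Ico (-L) L, R r y ≤ row L ω y := by
    intro y _
    have a1 := rowb y
    have a2 := row_nonneg L ω y
    have a3 := e1 y
    have a4 := e2 y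
    rw [abs_le] at a3 a4
    rw [R]
    omega
  have colR : ∀ x ∈ Ico (-r) (r + 1), R r x ≤ col L ω x + col L ω (2 * r + 2 - x) := by
    intro x _
    have a1 := colb x 0 (by omega) (by omega)
    have a2 := colb (2 * r + 2 - x) 0 (by omega) (by omega)
    have a3 := liph x 0
    have a4 := liph (2 * r + 2) (2 * r + 2 - x)
    rw [sub_zero] at a3
    rw [sub_sub_cancel] at a4
    have a5 := le_abs_self (p - φ x 0)
    have a6 := neg_abs_le (p - φ (2 * r + 2 - x) 0)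
    have a7 := abs_nonneg (p - φ x 0)
    have a8 := abs_nonneg (p - φ (2 * r + 2 - x) 0)
    rw [abs_le] at a3 a4
    rw [R]
    omega
  have s1 := Finset.sum_le_sum rowR
  have s2 := Finset.sum_le_sum colR
  have s3 := col_nonneg L ω (r + 1)
  have s4 : 0 ≤ ∑ x ∈ Ico (-L) (-r), col L ω x := Finset.sum_nonneg fun x _ => col_nonneg L ω x
  have s5 : 0 ≤ ∑ x ∈ Ico (3 * r + 3) L, col L ω x :=
    Finset.sum_nonneg fun x _ => col_nonneg L ω x
  rw [total_eq, sum_cols (col L ω) hr hL, Cst] at hC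
  have tr : ∀ y ∈ Ico (-L) L, row L ω y ≤ R r y := fun y hy => tight rowR (by omega) hy
  have tc : col L ω r + col L ω (2 * r + 2 - r) ≤ R r r :=
    tight (f := fun x => col L ω x + col L ω (2 * r + 2 - x)) colR (by omega)
      (by rw [mem_Ico]; omega)
  have tm : col L ω (r + 1) = 0 := by omega
  have hRr : R r r = 4 := by rw [R, abs_of_nonneg hr]; omega
  rw [hRr, (by ring : 2 * r + 2 - r = r + 1 + 1)] at tc
  have z : ∀ b x y, ¬ ((-L ≤ x ∧ x < L) ∧ (-L ≤ y ∧ y < L)) → ω (b, x, y) = 0 := by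
    intro b x y h
    exact hs.1 _ (by rw [mem_box]; exact h)
  have c1 : ∀ y, ω (false, r + 1, y) = 0 := by
    intro y
    by_cases hy : -L ≤ y ∧ y < L
    · have := (Finset.sum_eq_zero_iff_of_nonneg (fun _ _ => Int.natCast_nonneg _)).1 tm y
        (by rw [mem_Ico]; exact hy)
      exact_mod_cast this
    · exact z _ _ _ (by tauto)
  have cp : ∀ y, φ (r + 1) y = p := fun y =>
    (const_of (φ (r + 1)) (fun k => (hp.2 _ k).trans (by rw [c1]; rfl)) L y).trans (hp2 _).2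
  have key : ∀ y, -L ≤ y → y < L → (ω (true, r, y) : ℤ) = p - φ r y ∧
      (ω (true, r + 1, y) : ℤ) = φ (r + 1 + 1) y - p := by
    intro y h1 h2
    have a1 := rowb y
    have a2 := tr y (by rw [mem_Ico]; exact ⟨h1, h2⟩)
    have a3 := e1 y
    have a4 := e2 y
    rw [cp] at a3 a4
    rw [abs_le] at a3 a4
    rw [R] at a2
    by_cases hy : 0 ≤ 4 * r + 2 - 4 * |y|
    · omega
    · have a5 : row L ω y = 0 := by have := row_nonneg L ω y; omega
      have a6 := (Finset.sum_eq_zero_iff_of_nonneg (fun _ _ => Int.natCast_nonneg _)).1 a5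
      have a7 := a6 r (by rw [mem_Ico]; omega)
      have a8 := a6 (r + 1) (by rw [mem_Ico]; omega)
      omega
  have l1 := liph r 0
  have l2 := liph (2 * r + 2) (r + 1 + 1)
  rw [sub_zero, abs_of_nonneg hr, abs_le] at l1
  rw [(by ring : 2 * r + 2 - (r + 1 + 1) = r), abs_of_nonneg hr, abs_le] at l2
  have l3 := colb (r + 1 + 1) 0 (by omega) (by omega)
  have l4 := neg_abs_le (p - φ (r + 1 + 1) 0)
  refine ⟨c1, ?_, ?_, ?_⟩
  · intro y
    by_cases hy : -L ≤ y ∧ y < L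
    · have a1 := key y hy.1 hy.2
      have a2 := colb r y hy.1 hy.2.le
      have a3 := colb (r + 1 + 1) y hy.1 hy.2.le
      have a4 := le_abs_self (p - φ r y)
      have a5 := neg_abs_le (p - φ (r + 1 + 1) y)
      omega
    · rw [z _ _ _ (by tauto), z _ _ _ (by tauto)]; omega
  · intro y h1 h2
    have a0 := (key y (by omega) h2).1
    have a1 := tv r (-L) 0 (by omega)
    have a2 := tv r 0 y h1
    have a3 := tv r y L h2.le
    rw [(hp2 r).1] at a1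
    rw [(hp2 r).2] at a3
    rw [col, sum_split _ (by omega : -L ≤ 0) (by omega : 0 ≤ L), sum_split _ h1 h2.le] at tc
    rw [abs_le] at a1 a2 a3
    omega
  · intro y h1 h2
    have a0 := (key y h1 (by omega)).1
    have a1 := tv r (-L) y h1
    have a2 := tv r y 0 h2
    have a3 := tv r 0 L (by omega)
    rw [(hp2 r).1] at a1
    rw [(hp2 r).2] at a3
    rw [col, sum_split _ (by omega : -L ≤ 0) (by omega : 0 ≤ L), sum_split _ h1 h2] at tc
    rw [abs_le] at a1 a2 a3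
    omega

end Pool.Agent.Lib.MP_79314c_pr
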