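import Pool.Agent.Lib.MP_79314c_pr.Comb

open Finset

namespace Pool.Agent.Lib.MP_79314c_pr

/-- contraction of the column `x = r+1` -/
def contract (r : ℤ) (ω : E → ℕ) (i : E) : ℕ := merge r (fun x => ω (i.1, x, i.2.2)) i.2.1

theorem contract_lt {r x : ℤ} (ω : E → ℕ) (b : Bool) (y : ℤ) (h : x < r) :
    contract r ω (b, x, y) = ω (b, x, y) := by simp [contract, merge, h]

theorem contract_eq (r : ℤ) (ω : E → ℕ) (b : Bool) (y : ℤ) :
    contract r ω (b, r, y) = ω (b, r, y) + ω (b, r + 1, y) := by simp [contract, merge]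

theorem contract_gt {r x : ℤ} (ω : E → ℕ) (b : Bool) (y : ℤ) (h : r < x) :
    contract r ω (b, x, y) = ω (b, x + 1, y) := by
  simp only [contract, merge, if_neg (by omega : ¬ x < r), if_neg (by omega : ¬ x = r)]

/-- valid configurations of least weight for the distance `2r+2` -/
def IsMin (L r : ℤ) (ω : E → ℕ) : Prop :=
  Adm L ω ∧ Good (2 * r + 2) (4 * r + 2) ω ∧ (total L ω : ℤ) ≤ Cst L r

theorem good_contract {r t : ℤ} (hr : 0 ≤ r) {ω : E → ℕ} (h : Good (2 * r + 2) t ω) :
    Good (2 * r + 1) t (contract r ω) := by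
  obtain ⟨φ, hp, h0, hm⟩ := h
  refine ⟨fun x y => if x ≤ r then φ x y else φ (x + 1) y, ⟨fun x y => ?_, fun x y => ?_⟩, ?_, ?_⟩
  · rcases lt_trichotomy x r with hx | hx | hx
    · rw [contract_lt _ _ _ hx]
      simp only [if_pos (by omega : x + 1 ≤ r), if_pos hx.le]
      exact hp.1 x y
    · subst hx
      rw [contract_eq]
      simp only [if_neg (by omega : ¬ x + 1 ≤ x), if_pos (le_refl x)]
      have a1 := hp.1 x y
      have a2 := hp.1 (x + 1) y
      rw [abs_le] at a1 a2 ⊢
      push_cast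
      omega
    · rw [contract_gt _ _ _ hx]
      simp only [if_neg (by omega : ¬ x + 1 ≤ r), if_neg (by omega : ¬ x ≤ r)]
      exact hp.1 (x + 1) y
  · rcases lt_trichotomy x r with hx | hx | hx
    · rw [contract_lt _ _ _ hx]
      simp only [if_pos hx.le]
      exact hp.2 x y
    · subst hx
      rw [contract_eq]
      simp only [if_pos (le_refl x)]
      have a1 := hp.2 x y
      push_cast
      omega
    · rw [contract_gt _ _ _ hx]
      simp only [if_neg (by omega : ¬ x ≤ r)]
      exact hp.2 (x + 1) y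
  · simp only [if_pos hr]; exact h0
  · simp only [if_neg (by omega : ¬ 2 * r + 1 ≤ r)]
    rw [(by ring : 2 * r + 1 + 1 = 2 * r + 2)]; exact hm

theorem adm_contract {L r : ℤ} (hr : 0 ≤ r) (hL : 3 * r + 3 ≤ L) {ω : E → ℕ}
    (h : IsMin L r ω) : Adm L (contract r ω) := by
  obtain ⟨hs, ⟨φ, hp, h0, hm⟩, hC⟩ := h
  obtain ⟨c1, c2, -, -⟩ := structure_of_min hr hL hs hp h0 hm hC
  have z : ∀ b x y, ¬ ((-L ≤ x ∧ x < L) ∧ (-L ≤ y ∧ y < L)) → ω (b, x, y) = 0 := by
    intro b x y h
    exact hs.1 _ (by rw [mem_box]; exact h)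
  constructor
  · rintro ⟨b, x, y⟩ hi
    rw [mem_box] at hi
    rcases lt_trichotomy x r with hx | hx | hx
    · rw [contract_lt _ _ _ hx]; exact z _ _ _ hi
    · subst hx
      rw [contract_eq, z _ _ _ hi, z _ _ _ (by omega)]
    · rw [contract_gt _ _ _ hx]; exact z _ _ _ (by omega)
  · rintro ⟨b, x, y⟩
    rcases lt_trichotomy x r with hx | hx | hx
    · rw [contract_lt _ _ _ hx]; exact hs.2 _
    · subst hx
      rw [contract_eq]
      cases b
      · rw [c1]; exact hs.2 _
      · exact c2 y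
    · rw [contract_gt _ _ _ hx]; exact hs.2 _

theorem contract_inj {L r : ℤ} (hr : 0 ≤ r) (hL : 3 * r + 3 ≤ L) {ω ω' : E → ℕ}
    (h : IsMin L r ω) (h' : IsMin L r ω') (e : contract r ω = contract r ω') : ω = ω' := by
  obtain ⟨hs, ⟨φ, hp, h0, hm⟩, hC⟩ := h
  obtain ⟨c1, -, c3, c4⟩ := structure_of_min hr hL hs hp h0 hm hC
  obtain ⟨hs', ⟨φ', hp', h0', hm'⟩, hC'⟩ := h'
  obtain ⟨c1', -, c3', c4'⟩ := structure_of_min hr hL hs' hp' h0' hm' hC'
  have v : ∀ y, ω (false, r, y) = ω' (false, r, y) := by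
    intro y
    have := congrFun e (false, r, y)
    rwa [contract_eq, contract_eq, c1, c1', add_zero, add_zero] at this
  have w : ∀ y, ω (true, r, y) = ω' (true, r, y) := by
    intro y
    by_cases hy : -L ≤ y ∧ y < L
    · rcases le_total 0 y with h1 | h1
      · have a := c3 y h1 hy.2
        have a' := c3' y h1 hy.2
        simp only [v] at a
        exact_mod_cast a.trans a'.symm
      · have a := c4 y hy.1 h1
        have a' := c4' y hy.1 h1
        simp only [v] at a
        exact_mod_cast a.trans a'.symm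
    · rw [hs.1 _ (by rw [mem_box]; tauto), hs'.1 _ (by rw [mem_box]; tauto)]
  funext ⟨b, x, y⟩
  rcases lt_trichotomy x r with hx | hx | hx
  · have := congrFun e (b, x, y)
    rwa [contract_lt _ _ _ hx, contract_lt _ _ _ hx] at this
  · subst hx
    cases b
    · exact v y
    · exact w y
  · by_cases hx' : x = r + 1
    · subst hx'
      cases b
      · rw [c1, c1']
      · have := congrFun e (true, r, y)
        rw [contract_eq, contract_eq, w] at this
        omega
    · have := congrFun e (b, x - 1, y)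
      rwa [contract_gt _ _ _ (by omega), contract_gt _ _ _ (by omega), sub_add_cancel] at this

theorem sum_contract (f : ℕ → ℕ) (f0 : f 0 = 0) {L r : ℤ} (hr : 0 ≤ r) (hL : 3 * r + 3 ≤ L)
    {ω : E → ℕ} (hs : Adm L ω) :
    ∑ i ∈ box L, f (contract r ω i) +
      (∑ y ∈ Ico (-L) L, (f (ω (true, r, y)) + f (ω (true, r + 1, y))) +
        ∑ y ∈ Ico (-L) L, (f (ω (false, r, y)) + f (ω (false, r + 1, y)))) =
    ∑ i ∈ box L, f (ω i) + (∑ y ∈ Ico (-L) L, f (ω (true, r, y) + ω (true, r + 1, y)) +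
        ∑ y ∈ Ico (-L) L, f (ω (false, r, y) + ω (false, r + 1, y))) := by
  have key : ∀ b : Bool, ∑ y ∈ Ico (-L) L, ∑ x ∈ Ico (-L) L, f (contract r ω (b, x, y)) +
      ∑ y ∈ Ico (-L) L, (f (ω (b, r, y)) + f (ω (b, r + 1, y))) =
      ∑ y ∈ Ico (-L) L, ∑ x ∈ Ico (-L) L, f (ω (b, x, y)) +
      ∑ y ∈ Ico (-L) L, f (ω (b, r, y) + ω (b, r + 1, y)) := by
    intro b
    rw [← Finset.sum_add_distrib, ← Finset.sum_add_distrib]
    refine Finset.sum_congr rfl fun y _ => ?_
    exact sum_merge f f0 (fun x => ω (b, x, y)) (by omega) (by omega)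
      (hs.1 _ (by rw [mem_box]; omega))
  have k1 := key true
  have k2 := key false
  rw [sum_box, sum_box]
  omega

theorem total_contract {L r : ℤ} (hr : 0 ≤ r) (hL : 3 * r + 3 ≤ L) {ω : E → ℕ} (hs : Adm L ω) :
    total L (contract r ω) = total L ω := by
  have := sum_contract (fun k => k) rfl hr hL hs
  simp only [total]
  omega

noncomputable def pairs (L : ℤ) (ω : E → ℕ) : ℕ := ∑ i ∈ box L, (ω i).choose 2

theorem pairs_contract {L r : ℤ} (hr : 0 ≤ r) (hL : 3 * r + 3 ≤ L) {ω : E → ℕ} (hs : Adm L ω) :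
    pairs L ω + ω (true, r, 0) * ω (true, r + 1, 0) ≤ pairs L (contract r ω) := by
  have h := sum_contract (fun k => k.choose 2) rfl hr hL hs
  simp only [choose_two_add, Finset.sum_add_distrib] at h
  have h2 : ω (true, r, 0) * ω (true, r + 1, 0) ≤
      ∑ y ∈ Ico (-L) L, ω (true, r, y) * ω (true, r + 1, y) :=
    Finset.single_le_sum (f := fun y => ω (true, r, y) * ω (true, r + 1, y))
      (fun _ _ => Nat.zero_le _) (by rw [mem_Ico]; omega)
  simp only [pairs]
  omega

theorem pairs_le {L : ℤ} {ω : E → ℕ} (hs : Adm L ω) : pairs L ω ≤ (box L).card := by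
  rw [pairs, Finset.card_eq_sum_ones]
  refine Finset.sum_le_sum fun i _ => ?_
  have := hs.2 i
  interval_cases ω i <;> simp

/-- the balanced potential -/
def φs (r x y : ℤ) : ℤ :=
  min (2 * |x| + 2 * |y|) (2 * r + 1) + (2 * r + 1) - min (2 * |x - (2 * r + 2)| + 2 * |y|) (2 * r + 1)

def ωs (r : ℤ) (i : E) : ℕ :=
  if i.1 then (φs r (i.2.1 + 1) i.2.2 - φs r i.2.1 i.2.2).natAbs
  else (φs r i.2.1 (i.2.2 + 1) - φs r i.2.1 i.2.2).natAbs

theorem ωs_true (r x y : ℤ) : ωs r (true, x, y) = (φs r (x + 1) y - φs r x y).natAbs := rfl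

theorem ωs_false (r x y : ℤ) : ωs r (false, x, y) = (φs r x (y + 1) - φs r x y).natAbs := rfl

theorem ωs_mid {r : ℤ} (hr : 0 ≤ r) : ωs r (true, r, 0) * ωs r (true, r + 1, 0) = 1 := by
  have a : ωs r (true, r, 0) = 1 := by
    rw [ωs_true]; simp only [φs, abs_eq_max_neg]; omega
  have b : ωs r (true, r + 1, 0) = 1 := by
    rw [ωs_true]; simp only [φs, abs_eq_max_neg]; omega
  rw [a, b]

theorem isMin_ωs {L r : ℤ} (hr : 0 ≤ r) (hL : 3 * r + 3 ≤ L) : IsMin L r (ωs r) := by
  refine ⟨⟨?_, ?_⟩, ⟨φs r, ⟨fun x y => ?_, fun x y => ?_⟩, ?_, ?_⟩, ?_⟩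
  · rintro ⟨b, x, y⟩ hi
    rw [mem_box] at hi
    cases b
    · rw [ωs_false]; simp only [φs, abs_eq_max_neg]; omega
    · rw [ωs_true]; simp only [φs, abs_eq_max_neg]; omega
  · rintro ⟨b, x, y⟩
    cases b
    · rw [ωs_false]; simp only [φs, abs_eq_max_neg]; omega
    · rw [ωs_true]; simp only [φs, abs_eq_max_neg]; omega
  · rw [ωs_true, Int.natCast_natAbs]
  · rw [ωs_false, Int.natCast_natAbs]
  · simp only [φs, abs_eq_max_neg]; omega
  · simp only [φs, abs_eq_max_neg]; omega
  · have hrow : ∀ y, row L (ωs r) y = R r y := by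
      intro y
      simp only [row, ωs_true]
      rw [sum_split _ (by omega : -L ≤ 0) (by omega : 0 ≤ L),
        sum_split _ (by omega : 0 ≤ 2 * r + 2) (by omega : 2 * r + 2 ≤ L),
        sum_abs_anti (fun x => φs r x y) (by omega), sum_abs_mono (fun x => φs r x y) (by omega),
        sum_abs_anti (fun x => φs r x y) (by omega)]
      · simp only [φs, R, abs_eq_max_neg]; omega
      · intro k h1 h2; simp only [φs, abs_eq_max_neg]; omega
      · intro k h1 h2; simp only [φs, abs_eq_max_neg]; omega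
      · intro k h1 h2; simp only [φs, abs_eq_max_neg]; omega
    have hcol : ∀ x, col L (ωs r) x = 2 * |2 * r + 1 - φs r x 0| := by
      intro x
      simp only [col, ωs_false]
      rw [sum_split _ (by omega : -L ≤ 0) (by omega : 0 ≤ L)]
      rcases le_total x (r + 1) with hx | hx
      · rw [sum_abs_anti (φs r x) (by omega), sum_abs_mono (φs r x) (by omega)]
        · simp only [φs, abs_eq_max_neg]; omega
        · intro k h1 h2; simp only [φs, abs_eq_max_neg]; omega
        · intro k h1 h2; simp only [φs, abs_eq_max_neg]; omega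
      · rw [sum_abs_mono (φs r x) (by omega), sum_abs_anti (φs r x) (by omega)]
        · simp only [φs, abs_eq_max_neg]; omega
        · intro k h1 h2; simp only [φs, abs_eq_max_neg]; omega
        · intro k h1 h2; simp only [φs, abs_eq_max_neg]; omega
    have z1 : ∑ x ∈ Ico (-L) (-r), col L (ωs r) x = 0 := by
      refine Finset.sum_eq_zero fun x hx => ?_
      rw [mem_Ico] at hx
      rw [hcol]; simp only [φs, abs_eq_max_neg]; omega
    have z2 : ∑ x ∈ Ico (3 * r + 3) L, col L (ωs r) x = 0 := by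
      refine Finset.sum_eq_zero fun x hx => ?_
      rw [mem_Ico] at hx
      rw [hcol]; simp only [φs, abs_eq_max_neg]; omega
    have z3 : col L (ωs r) (r + 1) = 0 := by
      rw [hcol]; simp only [φs, abs_eq_max_neg]; omega
    have z4 : ∑ x ∈ Ico (-r) (r + 1), (col L (ωs r) x + col L (ωs r) (2 * r + 2 - x)) =
        ∑ x ∈ Ico (-r) (r + 1), R r x := by
      refine Finset.sum_congr rfl fun x hx => ?_
      rw [mem_Ico] at hx
      rw [hcol, hcol]; simp only [φs, R, abs_eq_max_neg]; omega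
    rw [total_eq, sum_cols (col L (ωs r)) hr hL, z1, z2, z3, z4, Cst]
    simp only [hrow]
    omega

end Pool.Agent.Lib.MP_79314c_pr
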