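import Mathlib

open scoped NNReal

namespace Pool.Agent.Lib.MP_79314c_pr

/-- The square lattice: vertices are the points of `ℤ × ℤ`, adjacent when at l1-distance one. -/
def grid : SimpleGraph (ℤ × ℤ) where
  Adj u v := |u.1 - v.1| + |u.2 - v.2| = 1
  symm := ⟨fun u v h => by rw [abs_sub_comm v.1, abs_sub_comm v.2]; exact h⟩
  loopless := ⟨fun u h => by simp at h⟩

/-- First-passage time from `u` to `v`: the infimum, over lattice walks from `u` to `v`, of the
sum of the weights of the edges traversed. -/
noncomputable def passageTime (τ : grid.edgeSet → ℝ≥0) (u v : ℤ × ℤ) : ℝ≥0 :=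
  ⨅ w : grid.Walk u v, (w.darts.map fun d => τ ⟨d.edge, d.edge_mem⟩).sum

end Pool.Agent.Lib.MP_79314c_pr
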