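import Pool.Agent.Lib.MP_79314c_pr.Mixture

open MeasureTheory Finset
open scoped NNReal ENNReal

namespace Pool.Agent.Lib.MP_79314c_pr

theorem law_classes {α x y : ℕ → ℝ} (h0 : ∀ k, 0 < α k) (h1 : ∀ k, α k ≤ 1 / 8)
    (h2 : ∀ k, α (k + 1) ≤ α k ^ 2) (y0 : y 0 = 2) (ys : ∀ k, y (k + 1) = 2 * x k + 1)
    (hxy : ∀ k, 2 * y k ≤ x k) (k : ℕ) :
    (law α x).real (cls (x k) (y k) 1) = α k ∧
    (law α x).real (cls (x k) (y k) 2) = 2 * α k ^ 2 ∧
    (law α x).real (cls (x k) (y k) 0 ∪ cls (x k) (y k) 1 ∪ cls (x k) (y k) 2)ᶜ ≤ 4 * α (k + 1) := by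
  have y2 : ∀ j, 2 ≤ y j := by
    intro j
    induction j with
    | zero => exact y0.ge
    | succ j ih => rw [ys]; linarith [hxy j]
  have ymono : Monotone y := monotone_nat_of_le_succ fun j => by
    rw [ys]; linarith [hxy j, y2 j]
  have x0 : ∀ j, 0 ≤ x j := fun j => by linarith [hxy j, y2 j]
  have low : ∀ j, j < k → 2 * x j + 1 ≤ y k := fun j hj => by
    rw [← ys]; exact ymono hj
  have high : ∀ j, k < j → 2 * (2 * x k + 1) ≤ x j := fun j hj => by
    rw [← ys]; linarith [hxy j, ymono (Nat.succ_le_of_lt hj)]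
  have a := hxy k
  have b := y2 k
  have other : ∀ l : ℕ, (l = 1 ∨ l = 2) → law α x (cls (x k) (y k) l) =
      layer (α k) (x k) (cls (x k) (y k) l) := by
    intro l hl
    have l1 : (1 : ℝ) ≤ l := by rcases hl with rfl | rfl <;> norm_num
    have l2 : (l : ℝ) ≤ 2 := by rcases hl with rfl | rfl <;> norm_num
    have xl1 : x k ≤ x k * l := by nlinarith [x0 k]
    have xl2 : x k * l ≤ 2 * x k := by nlinarith [x0 k]
    rw [law_apply _ _ (measurableSet_cls _ _ _), unif_none zero_le_one (measurableSet_cls _ _ _),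
      mul_zero, zero_add, tsum_eq_single k]
    · intro j hj
      refine layer_none _ (x0 j) fun z z1 z2 hz => ?_
      rw [mem_cls] at hz
      rcases Nat.lt_or_gt_of_ne hj with h | h
      · linarith [low j h, hz.1]
      · linarith [high j h, hz.2]
    · intro z z1 z2 hz
      rw [mem_cls] at hz
      linarith [hz.1]
  refine ⟨?_, ?_, ?_⟩
  · rw [measureReal_def, other 1 (Or.inl rfl), layer_apply,
      unif_full (x0 k) (measurableSet_cls _ _ _),
      unif_none (by linarith : 0 ≤ 2 * x k) (measurableSet_cls _ _ _), mul_one, mul_zero, add_zero,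
      ENNReal.toReal_ofReal (h0 k).le]
    · intro z z1 z2 hz
      rw [mem_cls] at hz
      push_cast at hz
      linarith [hz.2]
    · intro z z1 z2
      rw [mem_cls]
      push_cast
      constructor <;> linarith
  · rw [measureReal_def, other 2 (Or.inr rfl), layer_apply,
      unif_none (x0 k) (measurableSet_cls _ _ _),
      unif_full (by linarith : 0 ≤ 2 * x k) (measurableSet_cls _ _ _), mul_one, mul_zero, zero_add,
      ENNReal.toReal_ofReal (by positivity)]
    · intro z z1 z2
      rw [mem_cls]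
      push_cast
      constructor <;> linarith
    · intro z z1 z2 hz
      rw [mem_cls] at hz
      push_cast at hz
      linarith [hz.1]
  · have mgood : MeasurableSet (cls (x k) (y k) 0 ∪ cls (x k) (y k) 1 ∪ cls (x k) (y k) 2)ᶜ :=
      (((measurableSet_cls _ _ _).union (measurableSet_cls _ _ _)).union
        (measurableSet_cls _ _ _)).compl
    obtain ⟨s, t⟩ := tail_le h0 h1 h2 (k + 1)
    have nn : ∀ j, 0 ≤ α j + 2 * α j ^ 2 := fun j => by have := h0 j; positivity
    have zero : ∀ z : ℝ≥0, (z : ℝ) ≤ y k →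
        z ∉ (cls (x k) (y k) 0 ∪ cls (x k) (y k) 1 ∪ cls (x k) (y k) 2)ᶜ := by
      intro z hz h
      refine h (Or.inl (Or.inl ?_))
      rw [mem_cls]
      push_cast
      exact ⟨by simp, by linarith⟩
    refine ENNReal.toReal_le_of_le_ofReal (by linarith [h0 (k + 1)]) ?_
    rw [law_apply _ _ mgood, unif_none zero_le_one mgood (fun z _ z2 => zero z (by linarith)),
      mul_zero, zero_add, ← Summable.sum_add_tsum_nat_add' (k := k + 1) ENNReal.summable,
      Finset.sum_eq_zero, zero_add]
    · refine le_trans (ENNReal.tsum_le_tsum fun j => measure_mono (Set.subset_univ _)) ?_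
      simp only [layer_univ (h0 _).le]
      rw [← ENNReal.ofReal_tsum_of_nonneg (fun j => nn _) s]
      exact ENNReal.ofReal_le_ofReal t
    · intro j hj
      rw [mem_range] at hj
      rcases Nat.lt_succ_iff_lt_or_eq.1 hj with h | rfl
      · exact layer_none _ (x0 j) fun z _ z2 => zero z (by linarith [low j h])
      · rw [layer_apply, unif_none (x0 j) mgood, unif_none (by linarith : 0 ≤ 2 * x j) mgood,
          mul_zero, mul_zero, add_zero]
        · intro z z1 z2 h
          refine h (Or.inr ?_)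
          rw [mem_cls]
          push_cast
          constructor <;> linarith
        · intro z z1 z2 h
          refine h (Or.inl (Or.inr ?_))
          rw [mem_cls]
          push_cast
          constructor <;> linarith

theorem main : ∃ (F : Measure ℝ≥0) (_ : IsProbabilityMeasure F),
    F.map (fun z : ℝ≥0 => (z : ℝ)) ≪ volume ∧ (∀ᵐ z ∂F, 1 ≤ z) ∧
    (∀ s : ℝ, Integrable (fun z : ℝ≥0 => Real.exp (s * z)) F) ∧
    ∀ n : ℕ, Odd n → ∃ t : ℝ,
      (Measure.infinitePi fun _ : grid.edgeSet => F)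
          {τ | t < passageTime τ (0, 0) ((n : ℤ) + 1, 0)} <
        (Measure.infinitePi fun _ : grid.edgeSet => F)
          {τ | t < passageTime τ (0, 0) ((n : ℤ), 0)} := by
  have H := fun k : ℕ => single_scale (r := (k : ℤ)) (Int.natCast_nonneg k)
  choose M hM α₀ hα₀ H using H
  choose! γ hγ H using H
  let y : ℕ → ℝ := fun k => Nat.rec 2 (fun k yk => 2 * (M k * yk) + 1) k
  let x : ℕ → ℝ := fun k => M k * y k
  let c : ℕ → ℝ := fun k => min (α₀ k) (min (1 / 8) (Real.exp (-(k * (2 * x k + 2)))))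
  let α : ℕ → ℝ := fun k =>
    Nat.rec (c 0) (fun k a => min (c (k + 1)) (min (a ^ 2) (γ k a / 4))) k
  have y0 : y 0 = 2 := rfl
  have ys : ∀ k, y (k + 1) = 2 * x k + 1 := fun k => rfl
  have αs : ∀ k, α (k + 1) = min (c (k + 1)) (min (α k ^ 2) (γ k (α k) / 4)) := fun k => rfl
  have y2 : ∀ k, 2 ≤ y k := by
    intro k
    induction k with
    | zero => exact le_rfl
    | succ k ih =>
      rw [ys]
      have : 2 * y k ≤ M k * y k := mul_le_mul_of_nonneg_right (hM k) (by linarith)
      simp only [x]; linarith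
  have hxy : ∀ k, 2 * y k ≤ x k := fun k =>
    mul_le_mul_of_nonneg_right (hM k) (by linarith [y2 k])
  have x1 : ∀ k, 1 ≤ x k := fun k => by linarith [hxy k, y2 k]
  have cpos : ∀ k, 0 < c k := fun k => lt_min (hα₀ k) (lt_min (by norm_num) (Real.exp_pos _))
  have αc : ∀ k, α k ≤ c k := by
    intro k
    cases k with
    | zero => exact le_rfl
    | succ k => rw [αs]; exact min_le_left _ _
  have hle : ∀ k, α k ≤ α₀ k := fun k => (αc k).trans (min_le_left _ _)
  have h0 : ∀ k, 0 < α k := by
    intro k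
    induction k with
    | zero => exact cpos 0
    | succ k ih =>
      rw [αs]
      have := hγ k (α k) ih (hle k)
      exact lt_min (cpos _) (lt_min (by positivity) (by positivity))
  have h1 : ∀ k, α k ≤ 1 / 8 := fun k =>
    (αc k).trans ((min_le_right _ _).trans (min_le_left _ _))
  have h2 : ∀ k, α (k + 1) ≤ α k ^ 2 := fun k => by
    rw [αs]; exact (min_le_right _ _).trans (min_le_left _ _)
  have h3 : ∀ k : ℕ, α k ≤ Real.exp (-(k * (2 * x k + 2))) := fun k =>
    (αc k).trans ((min_le_right _ _).trans (min_le_right _ _))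
  have h4 : ∀ k, 4 * α (k + 1) ≤ γ k (α k) := fun k => by
    have : α (k + 1) ≤ γ k (α k) / 4 := by
      rw [αs]; exact (min_le_right _ _).trans (min_le_right _ _)
    linarith
  have := law_prob x h0 h1 h2
  refine ⟨law α x, inferInstance, law_ac α fun k => zero_le_one.trans (x1 k), law_ge_one α x1,
    law_exp (fun k => zero_le_one.trans (x1 k)) h0 h1 h3, ?_⟩
  rintro n ⟨k, rfl⟩
  obtain ⟨c1, c2, c3⟩ := law_classes h0 h1 h2 y0 ys hxy k
  have key := H k (α k) (h0 k) (hle k) (law α x) (x k) (y k) (by linarith [y2 k]) le_rfl c1 c2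
    (c3.trans (h4 k))
  refine ⟨(((4 * (k : ℤ) + 2 : ℤ) : ℝ) - 1 / 2) * x k, ?_⟩
  rw [measureReal_def, measureReal_def,
    ENNReal.toReal_lt_toReal (measure_ne_top _ _) (measure_ne_top _ _)] at key
  have e1 : ((2 * k + 1 : ℕ) : ℤ) + 1 = 2 * (k : ℤ) + 2 := by push_cast; ring
  have e2 : ((2 * k + 1 : ℕ) : ℤ) = 2 * (k : ℤ) + 1 := by push_cast; ring
  rw [e1, e2]
  exact key

end Pool.Agent.Lib.MP_79314c_pr
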