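import Pool.Agent.Lib.MP_79314c_pr.Scale

open MeasureTheory Finset
open scoped NNReal ENNReal

namespace Pool.Agent.Lib.MP_79314c_pr

/-- uniform law on `[c, c+1]` -/
noncomputable def unif (c : ℝ) : Measure ℝ≥0 :=
  (volume.restrict (Set.Icc c (c + 1))).map Real.toNNReal

theorem unif_apply (c : ℝ) {s : Set ℝ≥0} (hs : MeasurableSet s) :
    unif c s = volume (Real.toNNReal ⁻¹' s ∩ Set.Icc c (c + 1)) := by
  rw [unif, Measure.map_apply measurable_real_toNNReal hs,
    Measure.restrict_apply (measurable_real_toNNReal hs)]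

theorem unif_full {c : ℝ} (hc : 0 ≤ c) {s : Set ℝ≥0} (hs : MeasurableSet s)
    (h : ∀ z : ℝ≥0, c ≤ z → (z : ℝ) ≤ c + 1 → z ∈ s) : unif c s = 1 := by
  rw [unif_apply c hs, Set.inter_eq_right.2, Real.volume_Icc]
  · simp
  · intro x hx
    have e : ((Real.toNNReal x : ℝ≥0) : ℝ) = x := Real.coe_toNNReal x (hc.trans hx.1)
    exact h _ (by rw [e]; exact hx.1) (by rw [e]; exact hx.2)

theorem unif_none {c : ℝ} (hc : 0 ≤ c) {s : Set ℝ≥0} (hs : MeasurableSet s)
    (h : ∀ z : ℝ≥0, c ≤ z → (z : ℝ) ≤ c + 1 → z ∉ s) : unif c s = 0 := by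
  rw [unif_apply c hs]
  have : Real.toNNReal ⁻¹' s ∩ Set.Icc c (c + 1) = ∅ := by
    rw [Set.eq_empty_iff_forall_notMem]
    rintro x ⟨h1, hx⟩
    have e : ((Real.toNNReal x : ℝ≥0) : ℝ) = x := Real.coe_toNNReal x (hc.trans hx.1)
    exact h _ (by rw [e]; exact hx.1) (by rw [e]; exact hx.2) h1
  rw [this, measure_empty]

instance (c : ℝ) : IsProbabilityMeasure (unif c) := by
  constructor
  rw [unif_apply c MeasurableSet.univ]
  simp

theorem unif_null {c : ℝ} (hc : 0 ≤ c) {T : Set ℝ} (hT : MeasurableSet T) (h0 : volume T = 0) :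
    unif c ((fun z : ℝ≥0 => (z : ℝ)) ⁻¹' T) = 0 := by
  rw [unif_apply c (NNReal.continuous_coe.measurable hT)]
  refine measure_mono_null ?_ h0
  rintro x ⟨h1, hx⟩
  have e : ((Real.toNNReal x : ℝ≥0) : ℝ) = x := Real.coe_toNNReal x (hc.trans hx.1)
  simpa only [Set.mem_preimage, e] using h1

theorem unif_ae {c : ℝ} (hc : 0 ≤ c) : ∀ᵐ z : ℝ≥0 ∂(unif c), c ≤ (z : ℝ) ∧ (z : ℝ) ≤ c + 1 := by
  rw [ae_iff]
  refine unif_none hc ?_ fun z h1 h2 h => h ⟨h1, h2⟩
  exact (NNReal.continuous_coe.measurable (measurableSet_Icc (a := c) (b := c + 1))).compl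

/-- the part of the weight law at one scale -/
noncomputable def layer (α x : ℝ) : Measure ℝ≥0 :=
  ENNReal.ofReal α • unif x + ENNReal.ofReal (2 * α ^ 2) • unif (2 * x)

theorem layer_apply (α x : ℝ) (s : Set ℝ≥0) :
    layer α x s = ENNReal.ofReal α * unif x s + ENNReal.ofReal (2 * α ^ 2) * unif (2 * x) s := by
  simp [layer]

theorem layer_univ {α : ℝ} (hα : 0 ≤ α) (x : ℝ) :
    layer α x Set.univ = ENNReal.ofReal (α + 2 * α ^ 2) := by
  rw [layer_apply, measure_univ, measure_univ, mul_one, mul_one,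
    ENNReal.ofReal_add hα (by positivity)]

instance (α x : ℝ) : IsFiniteMeasure (layer α x) := by
  constructor
  rw [layer_apply, measure_univ, measure_univ, mul_one, mul_one]
  exact ENNReal.add_lt_top.2 ⟨ENNReal.ofReal_lt_top, ENNReal.ofReal_lt_top⟩

theorem layer_ae (α : ℝ) {x : ℝ} (hx : 0 ≤ x) :
    ∀ᵐ z : ℝ≥0 ∂(layer α x), x ≤ (z : ℝ) ∧ (z : ℝ) ≤ 2 * x + 1 := by
  rw [layer, ae_add_measure_iff]
  constructor
  · refine Measure.ae_smul_measure ?_ _
    filter_upwards [unif_ae hx] with z hz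
    exact ⟨hz.1, by linarith [hz.2]⟩
  · refine Measure.ae_smul_measure ?_ _
    filter_upwards [unif_ae (by linarith : 0 ≤ 2 * x)] with z hz
    exact ⟨by linarith [hz.1], hz.2⟩

theorem layer_none (α : ℝ) {x : ℝ} (hx : 0 ≤ x) {s : Set ℝ≥0}
    (h : ∀ z : ℝ≥0, x ≤ z → (z : ℝ) ≤ 2 * x + 1 → z ∉ s) : layer α x s = 0 := by
  have := layer_ae α hx
  rw [ae_iff] at this
  refine measure_mono_null ?_ this
  intro z hz h'
  exact h z h'.1 h'.2 hz

/-- the multi-scale weight law -/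
noncomputable def law (α x : ℕ → ℝ) : Measure ℝ≥0 :=
  ENNReal.ofReal (1 - ∑' k, (α k + 2 * α k ^ 2)) • unif 1 + Measure.sum fun k => layer (α k) (x k)

theorem law_apply (α x : ℕ → ℝ) {s : Set ℝ≥0} (hs : MeasurableSet s) :
    law α x s = ENNReal.ofReal (1 - ∑' k, (α k + 2 * α k ^ 2)) * unif 1 s +
      ∑' k, layer (α k) (x k) s := by
  simp [law, Measure.sum_apply _ hs]

theorem tail_le {α : ℕ → ℝ} (h0 : ∀ k, 0 < α k) (h1 : ∀ k, α k ≤ 1 / 8)
    (h2 : ∀ k, α (k + 1) ≤ α k ^ 2) (n : ℕ) :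
    (Summable fun k => α (k + n) + 2 * α (k + n) ^ 2) ∧
      ∑' k, (α (k + n) + 2 * α (k + n) ^ 2) ≤ 4 * α n := by
  have g : ∀ k, α (k + n) ≤ α n * (1 / 2) ^ k := by
    intro k
    induction k with
    | zero => simp
    | succ k ih =>
      have a := h2 (k + n)
      have b := h1 (k + n)
      have c := h0 (k + n)
      rw [(by ring : k + 1 + n = k + n + 1), pow_succ]
      nlinarith
  have g' : ∀ k, α (k + n) + 2 * α (k + n) ^ 2 ≤ 2 * α n * (1 / 2) ^ k := by
    intro k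
    have a := g k
    have b := h1 (k + n)
    have c := h0 (k + n)
    nlinarith
  have sg : Summable fun k : ℕ => 2 * α n * (1 / 2 : ℝ) ^ k := summable_geometric_two.mul_left _
  have s : Summable fun k => α (k + n) + 2 * α (k + n) ^ 2 :=
    Summable.of_nonneg_of_le (fun k => by have := h0 (k + n); positivity) g' sg
  refine ⟨s, (s.tsum_le_tsum g' sg).trans (le_of_eq ?_)⟩
  rw [tsum_mul_left, tsum_geometric_two]; ring

theorem law_prob {α : ℕ → ℝ} (x : ℕ → ℝ) (h0 : ∀ k, 0 < α k) (h1 : ∀ k, α k ≤ 1 / 8)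
    (h2 : ∀ k, α (k + 1) ≤ α k ^ 2) : IsProbabilityMeasure (law α x) := by
  constructor
  obtain ⟨s, t⟩ := tail_le h0 h1 h2 0
  simp only [add_zero] at s t
  have nn : ∀ k, 0 ≤ α k + 2 * α k ^ 2 := fun k => by have := h0 k; positivity
  rw [law_apply _ _ MeasurableSet.univ, measure_univ, mul_one]
  simp only [layer_univ (h0 _).le]
  rw [← ENNReal.ofReal_tsum_of_nonneg nn s, ← ENNReal.ofReal_add (by linarith [h1 0])
    (tsum_nonneg nn)]
  simp

theorem law_ac (α : ℕ → ℝ) {x : ℕ → ℝ} (hx : ∀ k, 0 ≤ x k) :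
    (law α x).map (fun z : ℝ≥0 => (z : ℝ)) ≪ volume := by
  refine Measure.AbsolutelyContinuous.mk fun T hT h0 => ?_
  rw [Measure.map_apply NNReal.continuous_coe.measurable hT,
    law_apply _ _ (NNReal.continuous_coe.measurable hT), unif_null zero_le_one hT h0]
  simp only [layer_apply, unif_null (hx _) hT h0,
    unif_null (mul_nonneg zero_le_two (hx _)) hT h0, mul_zero, add_zero, tsum_zero]

theorem law_ge_one (α : ℕ → ℝ) {x : ℕ → ℝ} (hx : ∀ k, 1 ≤ x k) :
    ∀ᵐ z : ℝ≥0 ∂(law α x), 1 ≤ z := by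
  rw [law, ae_add_measure_iff]
  constructor
  · refine Measure.ae_smul_measure ?_ _
    filter_upwards [unif_ae zero_le_one] with z hz
    exact_mod_cast hz.1
  · rw [Measure.ae_sum_iff]
    intro k
    filter_upwards [layer_ae (α k) (zero_le_one.trans (hx k))] with z hz
    exact_mod_cast (hx k).trans hz.1

theorem exp_bound (s : ℝ) {z : ℝ≥0} {c : ℝ} (h : (z : ℝ) ≤ c) :
    ‖Real.exp (s * z)‖ ≤ Real.exp (|s| * c) := by
  rw [Real.norm_of_nonneg (Real.exp_pos _).le, Real.exp_le_exp]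
  calc s * z ≤ |s| * z := mul_le_mul_of_nonneg_right (le_abs_self s) z.2
    _ ≤ |s| * c := mul_le_mul_of_nonneg_left h (abs_nonneg s)

theorem law_exp {α x : ℕ → ℝ} (hx : ∀ k, 0 ≤ x k) (h0 : ∀ k, 0 < α k) (h1 : ∀ k, α k ≤ 1 / 8)
    (h3 : ∀ k : ℕ, α k ≤ Real.exp (-(k * (2 * x k + 2)))) (s : ℝ) :
    Integrable (fun z : ℝ≥0 => Real.exp (s * z)) (law α x) := by
  have cont : Continuous fun z : ℝ≥0 => Real.exp (s * z) := by fun_prop
  have lb : ∀ k, ∀ᵐ z : ℝ≥0 ∂(layer (α k) (x k)),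
      ‖Real.exp (s * z)‖ ≤ Real.exp (|s| * (2 * x k + 1)) := fun k => by
    filter_upwards [layer_ae (α k) (hx k)] with z hz
    exact exp_bound s hz.2
  rw [law]
  refine Integrable.add_measure (Integrable.smul_measure ?_ ENNReal.ofReal_ne_top) ?_
  · refine Integrable.of_bound cont.aestronglyMeasurable (Real.exp (|s| * (1 + 1))) ?_
    filter_upwards [unif_ae zero_le_one] with z hz
    exact exp_bound s hz.2
  · refine integrable_sum_measure
      (fun k => Integrable.of_bound cont.aestronglyMeasurable _ (lb k)) ?_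
    refine Summable.of_norm_bounded_eventually_nat (Real.summable_exp_neg_nat.mul_left 2) ?_
    filter_upwards [Filter.eventually_ge_atTop ⌈|s|⌉₊] with k hk
    have hk' : |s| ≤ k := Nat.ceil_le.1 hk
    have a := norm_integral_le_of_norm_le_const (μ := layer (α k) (x k))
      (f := fun z : ℝ≥0 => ‖Real.exp (s * z)‖) (C := Real.exp (|s| * (2 * x k + 1)))
      (by filter_upwards [lb k] with z hz; rwa [norm_norm])
    refine a.trans ?_
    have c0 := h0 k
    have c1 := h1 k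
    rw [measureReal_def, layer_univ c0.le, ENNReal.toReal_ofReal (by positivity)]
    have b : Real.exp (|s| * (2 * x k + 1)) * α k ≤ Real.exp (-k) := by
      refine (mul_le_mul_of_nonneg_left (h3 k) (Real.exp_pos _).le).trans ?_
      rw [← Real.exp_add, Real.exp_le_exp]
      have := hx k
      nlinarith
    have e : 0 < Real.exp (|s| * (2 * x k + 1)) := Real.exp_pos _
    have d : α k + 2 * α k ^ 2 ≤ 2 * α k := by nlinarith
    have := mul_le_mul_of_nonneg_left d e.le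
    nlinarith

end Pool.Agent.Lib.MP_79314c_pr
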