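import Mathlib

open Finset

namespace Pool.Agent.Lib.MP_79314c_pr

theorem sum_split {M : Type*} [AddCommMonoid M] (f : ℤ → M) {i j k : ℤ} (h1 : i ≤ j)
    (h2 : j ≤ k) : ∑ x ∈ Ico i k, f x = ∑ x ∈ Ico i j, f x + ∑ x ∈ Ico j k, f x := by
  rw [← Finset.sum_union (Finset.Ico_disjoint_Ico_consecutive i j k),
    Finset.Ico_union_Ico_eq_Ico h1 h2]

theorem sum_one {M : Type*} [AddCommMonoid M] (f : ℤ → M) (i : ℤ) :
    ∑ x ∈ Ico i (i + 1), f x = f i := by
  have : Ico i (i + 1) = {i} := by ext x; simp only [mem_Ico, mem_singleton]; omega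
  rw [this, sum_singleton]

theorem tele (a : ℤ → ℤ) {i j : ℤ} (h : i ≤ j) :
    ∑ k ∈ Ico i j, (a (k + 1) - a k) = a j - a i := by
  induction j, h using Int.leInduction with
  | base => simp
  | succ n hn ih =>
    rw [sum_split _ hn (by omega : n ≤ n + 1), ih, sum_one]; ring

theorem tele_abs (a w : ℤ → ℤ) {i j : ℤ} (hij : i ≤ j)
    (h : ∀ k, i ≤ k → k < j → |a (k + 1) - a k| ≤ w k) :
    |a j - a i| ≤ ∑ k ∈ Ico i j, w k := by
  rw [← tele a hij]
  refine (Finset.abs_sum_le_sum_abs _ _).trans (Finset.sum_le_sum fun k hk => ?_)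
  rw [mem_Ico] at hk
  exact h k hk.1 hk.2

theorem lip (a : ℤ → ℤ) (c : ℤ) (h : ∀ k, |a (k + 1) - a k| ≤ c) (i j : ℤ) :
    |a j - a i| ≤ c * |j - i| := by
  have key : ∀ i j : ℤ, i ≤ j → |a j - a i| ≤ c * |j - i| := by
    intro i j hij
    have := tele_abs a (fun _ => c) hij (fun k _ _ => h k)
    rw [sum_const, Int.card_Ico, nsmul_eq_mul, Int.toNat_of_nonneg (by omega)] at this
    rw [abs_of_nonneg (by omega : 0 ≤ j - i), mul_comm]; exact this
  rcases le_total i j with hij | hij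
  · exact key i j hij
  · rw [abs_sub_comm, abs_sub_comm j]; exact key j i hij

theorem const_of (a : ℤ → ℤ) (h : ∀ k, |a (k + 1) - a k| ≤ 0) (i j : ℤ) : a j = a i := by
  have := lip a 0 h i j
  rw [zero_mul, abs_nonpos_iff] at this
  omega

theorem sum_abs_mono (a : ℤ → ℤ) {i j : ℤ} (hij : i ≤ j)
    (h : ∀ k, i ≤ k → k < j → a k ≤ a (k + 1)) :
    ∑ k ∈ Ico i j, (((a (k + 1) - a k).natAbs : ℕ) : ℤ) = a j - a i := by
  rw [← tele a hij]
  refine Finset.sum_congr rfl fun k hk => ?_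
  rw [mem_Ico] at hk
  have := h k hk.1 hk.2
  omega

theorem sum_abs_anti (a : ℤ → ℤ) {i j : ℤ} (hij : i ≤ j)
    (h : ∀ k, i ≤ k → k < j → a (k + 1) ≤ a k) :
    ∑ k ∈ Ico i j, (((a (k + 1) - a k).natAbs : ℕ) : ℤ) = a i - a j := by
  have := tele a hij
  rw [← neg_sub (a j), ← this, ← Finset.sum_neg_distrib]
  refine Finset.sum_congr rfl fun k hk => ?_
  rw [mem_Ico] at hk
  have := h k hk.1 hk.2
  omega

/-- merging the entries `r` and `r+1` of a sequence -/
def merge (r : ℤ) (a : ℤ → ℕ) (x : ℤ) : ℕ :=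
  if x < r then a x else if x = r then a r + a (r + 1) else a (x + 1)

theorem sum_merge (f : ℕ → ℕ) (f0 : f 0 = 0) (a : ℤ → ℕ) {L r : ℤ} (h1 : -L ≤ r)
    (h2 : r + 1 < L) (hL : a L = 0) :
    ∑ x ∈ Ico (-L) L, f (merge r a x) + (f (a r) + f (a (r + 1))) =
      ∑ x ∈ Ico (-L) L, f (a x) + f (a r + a (r + 1)) := by
  have e1 : ∑ x ∈ Ico (-L) r, f (merge r a x) = ∑ x ∈ Ico (-L) r, f (a x) := by
    refine Finset.sum_congr rfl fun k hk => ?_
    rw [mem_Ico] at hk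
    simp only [merge, if_pos hk.2]
  have e2 : f (merge r a r) = f (a r + a (r + 1)) := by simp [merge]
  have e3 : ∑ x ∈ Ico (r + 1) L, f (merge r a x) = ∑ x ∈ Ico (r + 1 + 1) L, f (a x) := by
    have : ∑ x ∈ Ico (r + 1) L, f (merge r a x) = ∑ x ∈ Ico (r + 1) L, f (a (x + 1)) := by
      refine Finset.sum_congr rfl fun k hk => ?_
      rw [mem_Ico] at hk
      simp only [merge, if_neg (by omega : ¬ k < r), if_neg (by omega : ¬ k = r)]
    rw [this, Finset.sum_Ico_add' (fun x => f (a x)) (r + 1) L 1,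
      sum_split _ (by omega : r + 1 + 1 ≤ L) (by omega : L ≤ L + 1), sum_one, hL, f0, add_zero]
  rw [sum_split _ h1 (by omega : r ≤ L), sum_split _ (by omega : r ≤ r + 1) (by omega : r + 1 ≤ L),
    sum_one, e1, e2, e3, sum_split (fun x => f (a x)) h1 (by omega : r ≤ L),
    sum_split (fun x => f (a x)) (by omega : r ≤ r + 1) (by omega : r + 1 ≤ L), sum_one,
    sum_split (fun x => f (a x)) (by omega : r + 1 ≤ r + 1 + 1) (by omega : r + 1 + 1 ≤ L),
    sum_one]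
  ring

theorem choose_two_add (a b : ℕ) : (a + b).choose 2 = a.choose 2 + b.choose 2 + a * b := by
  induction b with
  | zero => simp
  | succ n ih =>
    rw [← add_assoc, Nat.choose_succ_succ' (a + n) 1, Nat.choose_succ_succ' n 1, ih]
    simp only [Nat.choose_one_right]
    ring

/-- decomposition of a sum over columns into mirror pairs, the middle column and the rest -/
theorem sum_cols (c : ℤ → ℤ) {L r : ℤ} (hr : 0 ≤ r) (hL : 3 * r + 3 ≤ L) :
    ∑ x ∈ Ico (-L) L, c x = ∑ x ∈ Ico (-r) (r + 1), (c x + c (2 * r + 2 - x)) + c (r + 1) +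
      (∑ x ∈ Ico (-L) (-r), c x + ∑ x ∈ Ico (3 * r + 3) L, c x) := by
  have e : ∑ x ∈ Ico (-r) (r + 1), c (2 * r + 2 - x) = ∑ x ∈ Ico (r + 1 + 1) (3 * r + 3), c x := by
    refine Finset.sum_nbij' (fun x => 2 * r + 2 - x) (fun x => 2 * r + 2 - x) ?_ ?_ ?_ ?_ ?_
    · intro x hx; simp only [mem_Ico] at hx ⊢; omega
    · intro x hx; simp only [mem_Ico] at hx ⊢; omega
    · intro x _; ring
    · intro x _; ring
    · intro x _; rfl
  rw [Finset.sum_add_distrib, e, sum_split c (by omega : -L ≤ -r) (by omega : -r ≤ L),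
    sum_split c (by omega : -r ≤ r + 1) (by omega : r + 1 ≤ L),
    sum_split c (by omega : r + 1 ≤ r + 1 + 1) (by omega : r + 1 + 1 ≤ L), sum_one,
    sum_split c (by omega : r + 1 + 1 ≤ 3 * r + 3) hL]
  ring

/-- a termwise lower bound whose sum is attained is attained termwise -/
theorem tight {s : Finset ℤ} {f g : ℤ → ℤ} (h : ∀ x ∈ s, g x ≤ f x)
    (hs : ∑ x ∈ s, f x ≤ ∑ x ∈ s, g x) {x : ℤ} (hx : x ∈ s) : f x ≤ g x := by
  have := (Finset.sum_eq_sum_iff_of_le h).1 (le_antisymm (Finset.sum_le_sum h) hs) x hx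
  omega

/-- pigeonhole: an interval of more than `C` lines contains one of weight zero -/
theorem exists_zero (c : ℤ → ℤ) (hc : ∀ x, 0 ≤ c x) {L i j C : ℤ} (h1 : -L ≤ i) (h2 : j ≤ L)
    (hij : i + C < j) (hC : ∑ x ∈ Ico (-L) L, c x ≤ C) : ∃ x, i ≤ x ∧ x < j ∧ c x = 0 := by
  by_contra hne
  push Not at hne
  have h0 : 0 ≤ C := (Finset.sum_nonneg fun x _ => hc x).trans hC
  have h3 : ∑ x ∈ Ico i j, (1 : ℤ) ≤ ∑ x ∈ Ico i j, c x := by
    refine Finset.sum_le_sum fun x hx => ?_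
    rw [mem_Ico] at hx
    have := hne x hx.1 hx.2
    have := hc x
    omega
  have h4 : ∑ x ∈ Ico i j, c x ≤ ∑ x ∈ Ico (-L) L, c x :=
    Finset.sum_le_sum_of_subset_of_nonneg (Finset.Ico_subset_Ico h1 h2) fun x _ _ => hc x
  rw [sum_const, Int.card_Ico, nsmul_eq_mul, Int.toNat_of_nonneg (by omega)] at h3
  omega

end Pool.Agent.Lib.MP_79314c_pr
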