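import Pool.Agent.Lib.MP_79314c_pr.Contract

open Finset

namespace Pool.Agent.Lib.MP_79314c_pr

theorem good_of_local {L m t C : ℤ} {ω : E → ℕ} (φ : ℤ → ℤ → ℤ)
    (hh : ∀ x y, ((true, x, y) : E) ∈ box L → |φ (x + 1) y - φ x y| ≤ (ω (true, x, y) : ℤ))
    (hv : ∀ x y, ((false, x, y) : E) ∈ box L → |φ x (y + 1) - φ x y| ≤ (ω (false, x, y) : ℤ))
    (h0 : φ 0 0 ≤ 0) (ht : t ≤ φ m 0) (hm : 0 ≤ m) (hC : (total L ω : ℤ) ≤ C)
    (hL : m + C < L) : Good m t ω := by
  have s1 : 0 ≤ ∑ y ∈ Ico (-L) L, row L ω y := Finset.sum_nonneg fun y _ => row_nonneg L ω y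
  have s2 : 0 ≤ ∑ x ∈ Ico (-L) L, col L ω x := Finset.sum_nonneg fun x _ => col_nonneg L ω x
  rw [total_eq] at hC
  obtain ⟨a, a1, a2, a3⟩ := exists_zero (col L ω) (col_nonneg L ω) (L := L) (i := -L) (j := 0)
    (C := C) le_rfl (by omega) (by omega) (by omega)
  obtain ⟨b, b1, b2, b3⟩ := exists_zero (col L ω) (col_nonneg L ω) (L := L) (i := m) (j := L)
    (C := C) (by omega) le_rfl (by omega) (by omega)
  obtain ⟨c, c1, c2, c3⟩ := exists_zero (row L ω) (row_nonneg L ω) (L := L) (i := -L) (j := 0)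
    (C := C) le_rfl (by omega) (by omega) (by omega)
  obtain ⟨d, d1, d2, d3⟩ := exists_zero (row L ω) (row_nonneg L ω) (L := L) (i := 0) (j := L)
    (C := C) (by omega) le_rfl (by omega) (by omega)
  have zc : ∀ x, col L ω x = 0 → ∀ y, -L ≤ y → y < L → (ω (false, x, y) : ℤ) = 0 :=
    fun x hx y h1 h2 => (Finset.sum_eq_zero_iff_of_nonneg (fun _ _ => Int.natCast_nonneg _)).1 hx y
      (by rw [mem_Ico]; exact ⟨h1, h2⟩)
  have zr : ∀ y, row L ω y = 0 → ∀ x, -L ≤ x → x < L → (ω (true, x, y) : ℤ) = 0 :=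
    fun y hy x h1 h2 => (Finset.sum_eq_zero_iff_of_nonneg (fun _ _ => Int.natCast_nonneg _)).1 hy x
      (by rw [mem_Ico]; exact ⟨h1, h2⟩)
  refine ⟨fun x y => φ (max a (min x b)) (max c (min y d)), ⟨fun x y => ?_, fun x y => ?_⟩, ?_, ?_⟩
  · by_cases hx : a ≤ x ∧ x < b
    · simp only [(by omega : max a (min (x + 1) b) = x + 1), (by omega : max a (min x b) = x)]
      have k := hh x (max c (min y d)) (by rw [mem_box]; omega)
      by_cases hy : c ≤ y ∧ y ≤ d
      · rw [(by omega : max c (min y d) = y)] at k ⊢; exact k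
      · refine k.trans (le_of_eq_of_le ?_ (Int.natCast_nonneg _))
        rcases (by omega : max c (min y d) = c ∨ max c (min y d) = d) with e | e
        · rw [e]; exact zr c c3 x (by omega) (by omega)
        · rw [e]; exact zr d d3 x (by omega) (by omega)
    · simp only [(by omega : max a (min (x + 1) b) = max a (min x b)), sub_self, abs_zero]
      exact Int.natCast_nonneg _
  · by_cases hy : c ≤ y ∧ y < d
    · simp only [(by omega : max c (min (y + 1) d) = y + 1), (by omega : max c (min y d) = y)]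
      have k := hv (max a (min x b)) y (by rw [mem_box]; omega)
      by_cases hx : a ≤ x ∧ x ≤ b
      · rw [(by omega : max a (min x b) = x)] at k ⊢; exact k
      · refine k.trans (le_of_eq_of_le ?_ (Int.natCast_nonneg _))
        rcases (by omega : max a (min x b) = a ∨ max a (min x b) = b) with e | e
        · rw [e]; exact zc a a3 y (by omega) (by omega)
        · rw [e]; exact zc b b3 y (by omega) (by omega)
    · simp only [(by omega : max c (min (y + 1) d) = max c (min y d)), sub_self, abs_zero]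
      exact Int.natCast_nonneg _
  · simp only [(by omega : max a (min 0 b) = 0), (by omega : max c (min 0 d) = 0)]; exact h0
  · simp only [(by omega : max a (min m b) = m), (by omega : max c (min 0 d) = 0)]; exact ht

theorem exists_round {ι : Type*} (V : Finset ι) (s : ι → ℝ) {δ : ℝ} (hδ : 0 < δ)
    (h : ((V.card : ℝ) + 2) * δ ≤ 1 / 2) :
    ∃ θ : ℝ, 0 < θ ∧ θ ≤ 1 / 2 ∧ ∀ z ∈ V, ⌊s z - θ - δ⌋ = ⌊s z - θ⌋ := by
  by_contra hne
  push Not at hne
  set f : ι → ℕ → ℤ := fun z j => ⌊s z - ((j : ℝ) + 1) * δ⌋ with hf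
  have anti : ∀ z j, f z (j + 1) ≤ f z j := by
    intro z j
    refine Int.floor_le_floor ?_
    push_cast
    nlinarith
  have step : ∀ j ∈ range (V.card + 1), (1 : ℤ) ≤ ∑ z ∈ V, (f z j - f z (j + 1)) := by
    intro j hj
    rw [mem_range] at hj
    have hj' : (j : ℝ) ≤ V.card := by exact_mod_cast Nat.lt_succ_iff.1 hj
    obtain ⟨z, hz, hz'⟩ := hne (((j : ℝ) + 1) * δ) (by positivity) (by nlinarith)
    have e : f z (j + 1) = ⌊s z - ((j : ℝ) + 1) * δ - δ⌋ := by
      simp only [hf]; congr 1; push_cast; ring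
    have a : (1 : ℤ) ≤ f z j - f z (j + 1) := by
      have := anti z j
      have e2 : f z j = ⌊s z - ((j : ℝ) + 1) * δ⌋ := rfl
      omega
    exact a.trans (Finset.single_le_sum (f := fun z => f z j - f z (j + 1))
      (fun z _ => sub_nonneg.2 (anti z j)) hz)
  have h1 := Finset.sum_le_sum step
  rw [Finset.sum_comm] at h1
  have h2 : ∑ z ∈ V, ∑ j ∈ range (V.card + 1), (f z j - f z (j + 1)) ≤ ∑ z ∈ V, (1 : ℤ) := by
    refine Finset.sum_le_sum fun z _ => ?_
    rw [Finset.sum_range_sub' (f z)]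
    have : f z 0 ≤ f z (V.card + 1) + 1 := by
      simp only [hf]
      rw [← Int.floor_add_one]
      refine Int.floor_le_floor ?_
      push_cast
      nlinarith
    omega
  simp only [sum_const, card_range, nsmul_eq_mul, mul_one] at h1 h2
  push_cast at h1
  omega

theorem floor_step {u v θ δ : ℝ} {k : ℕ} (h : u ≤ v + k + δ) (e : ⌊u - θ - δ⌋ = ⌊u - θ⌋) :
    ⌊u - θ⌋ ≤ ⌊v - θ⌋ + k := by
  rw [← e, ← Int.floor_add_natCast]
  exact Int.floor_le_floor (by linarith)

/-- A real potential for noisy weights gives an integer potential for the coarse weights. -/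
theorem good_of_real {L m t C : ℤ} {ω : E → ℕ} (ψ : ℤ → ℤ → ℝ) {δ : ℝ} (hδ : 0 < δ)
    (hN : (((Icc (-L) L ×ˢ Icc (-L) L).card : ℝ) + 2) * δ ≤ 1 / 2)
    (hh : ∀ x y, ((true, x, y) : E) ∈ box L → |ψ (x + 1) y - ψ x y| ≤ (ω (true, x, y) : ℝ) + δ)
    (hv : ∀ x y, ((false, x, y) : E) ∈ box L → |ψ x (y + 1) - ψ x y| ≤ (ω (false, x, y) : ℝ) + δ)
    (h0 : ψ 0 0 ≤ 0) (ht : (t : ℝ) - 1 / 2 < ψ m 0) (hm : 0 ≤ m) (hC : (total L ω : ℤ) ≤ C)
    (hL : m + C < L) : Good m t ω := by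
  obtain ⟨θ, θ0, θ1, hθ⟩ := exists_round (Icc (-L) L ×ˢ Icc (-L) L) (fun z => ψ z.1 z.2) hδ hN
  have hθ' : ∀ x y, -L ≤ x → x ≤ L → -L ≤ y → y ≤ L → ⌊ψ x y - θ - δ⌋ = ⌊ψ x y - θ⌋ :=
    fun x y h1 h2 h3 h4 => hθ (x, y) (by simp [h1, h2, h3, h4])
  refine good_of_local (L := L) (C := C) (fun x y => ⌊ψ x y - θ⌋ + 1) ?_ ?_ ?_ ?_ hm hC hL
  · intro x y hi
    have k := hh x y hi
    rw [mem_box] at hi
    rw [abs_le] at k ⊢
    have a1 := floor_step (u := ψ (x + 1) y) (v := ψ x y) (k := ω (true, x, y)) (by linarith)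
      (hθ' (x + 1) y (by omega) (by omega) (by omega) (by omega))
    have a2 := floor_step (u := ψ x y) (v := ψ (x + 1) y) (k := ω (true, x, y)) (by linarith)
      (hθ' x y (by omega) (by omega) (by omega) (by omega))
    omega
  · intro x y hi
    have k := hv x y hi
    rw [mem_box] at hi
    rw [abs_le] at k ⊢
    have a1 := floor_step (u := ψ x (y + 1)) (v := ψ x y) (k := ω (false, x, y)) (by linarith)
      (hθ' x (y + 1) (by omega) (by omega) (by omega) (by omega))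
    have a2 := floor_step (u := ψ x y) (v := ψ x (y + 1)) (k := ω (false, x, y)) (by linarith)
      (hθ' x y (by omega) (by omega) (by omega) (by omega))
    omega
  · have : ⌊ψ 0 0 - θ⌋ < 0 := Int.floor_lt.2 (by push_cast; linarith)
    show ⌊ψ 0 0 - θ⌋ + 1 ≤ 0
    omega
  · have : t - 1 ≤ ⌊ψ m 0 - θ⌋ := Int.le_floor.2 (by push_cast; linarith)
    show t ≤ ⌊ψ m 0 - θ⌋ + 1
    omega

theorem exists_L {r : ℤ} (hr : 0 ≤ r) : ∃ L : ℤ, 3 * r + 3 ≤ L ∧ 2 * r + 2 + Cst L r < L := by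
  have h0 : 0 ≤ ∑ x ∈ Ico (-r) (r + 1), R r x :=
    Finset.sum_nonneg fun x _ => by rw [R]; omega
  refine ⟨3 * r + 3 + 2 * ∑ x ∈ Ico (-r) (r + 1), R r x, by omega, ?_⟩
  generalize hL : 3 * r + 3 + 2 * ∑ x ∈ Ico (-r) (r + 1), R r x = L
  have : ∑ x ∈ Ico (-r) (r + 1), R r x = ∑ y ∈ Ico (-L) L, R r y := by
    refine Finset.sum_subset (Finset.Ico_subset_Ico (by omega) (by omega)) fun y _ hy => ?_
    rw [mem_Ico] at hy
    simp only [R, abs_eq_max_neg]; omega
  rw [Cst]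
  omega

end Pool.Agent.Lib.MP_79314c_pr
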