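import Pool.Agent.Lib.MP_79314c_pr.Walks

open MeasureTheory Finset
open scoped NNReal

namespace Pool.Agent.Lib.MP_79314c_pr

/-- the weight class number `k` at scale `X` with noise `y` -/
def cls (X y : ℝ) (k : ℕ) : Set ℝ≥0 := (fun z : ℝ≥0 => (z : ℝ)) ⁻¹' Set.Icc (X * k) (X * k + y)

theorem mem_cls {X y : ℝ} {k : ℕ} {z : ℝ≥0} :
    z ∈ cls X y k ↔ X * k ≤ z ∧ (z : ℝ) ≤ X * k + y := Iff.rfl

theorem measurableSet_cls (X y : ℝ) (k : ℕ) : MeasurableSet (cls X y k) :=
  NNReal.continuous_coe.measurable measurableSet_Icc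

theorem cls_unique {X y : ℝ} (hy : 0 < y) (h : y < X) {k l : ℕ} {z : ℝ≥0} (hk : z ∈ cls X y k)
    (hl : z ∈ cls X y l) : k = l := by
  rw [mem_cls] at hk hl
  by_contra hne
  rcases Nat.lt_or_gt_of_ne hne with h1 | h1
  · have : (k : ℝ) + 1 ≤ l := by exact_mod_cast h1
    nlinarith [hk.2, hl.1]
  · have : (l : ℝ) + 1 ≤ k := by exact_mod_cast h1
    nlinarith [hk.1, hl.2]

def cyl (L : ℤ) (X y : ℝ) (ω : E → ℕ) : Set (grid.edgeSet → ℝ≥0) :=
  {τ | ∀ i ∈ box L, τ (edgeOf i) ∈ cls X y (ω i)}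

theorem cyl_eq (L : ℤ) (X y : ℝ) (ω : E → ℕ) :
    cyl L X y ω = Set.pi ((box L).map ⟨edgeOf, edgeOf_injective⟩ : Finset grid.edgeSet)
      (fun e => cls X y (ω (Function.invFun edgeOf e))) := by
  ext τ
  simp only [cyl, Set.mem_ofPred_eq, Set.mem_pi, Finset.mem_coe, Finset.mem_map,
    Function.Embedding.coeFn_mk]
  constructor
  · rintro h e ⟨i, hi, rfl⟩
    rw [Function.leftInverse_invFun edgeOf_injective i]
    exact h i hi
  · intro h i hi
    have := h _ ⟨i, hi, rfl⟩
    rwa [Function.leftInverse_invFun edgeOf_injective i] at this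

theorem measurableSet_cyl (L : ℤ) (X y : ℝ) (ω : E → ℕ) : MeasurableSet (cyl L X y ω) := by
  rw [cyl_eq]
  exact MeasurableSet.pi (Finset.countable_toSet _) fun _ _ => measurableSet_cls _ _ _

theorem real_cyl (F : Measure ℝ≥0) [IsProbabilityMeasure F] (L : ℤ) (X y : ℝ) (ω : E → ℕ) :
    (Measure.infinitePi fun _ : grid.edgeSet => F).real (cyl L X y ω) =
      ∏ i ∈ box L, F.real (cls X y (ω i)) := by
  rw [cyl_eq, measureReal_def, Measure.infinitePi_pi _ (fun _ _ => measurableSet_cls _ _ _),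
    Finset.prod_map, ENNReal.toReal_prod]
  refine Finset.prod_congr rfl fun i _ => ?_
  simp only [Function.Embedding.coeFn_mk]
  rw [Function.leftInverse_invFun edgeOf_injective i, measureReal_def]

theorem finite_adm (L : ℤ) : {ω : E → ℕ | Adm L ω}.Finite := by
  refine Set.Finite.of_injOn (f := fun ω (i : box L) => ω i)
    (t := Set.pi Set.univ fun _ => Set.Iic 2) ?_ ?_ (Set.Finite.pi fun _ => Set.finite_Iic 2)
  · intro ω hω i _
    exact hω.2 i
  · intro ω hω ω' hω' e
    funext i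
    by_cases hi : i ∈ box L
    · exact congrFun e ⟨i, hi⟩
    · rw [hω.1 i hi, hω'.1 i hi]

theorem cyl_disjoint {L : ℤ} {X y : ℝ} (hy : 0 < y) (h : y < X) {ω ω' : E → ℕ} (h1 : Adm L ω)
    (h2 : Adm L ω') (hne : ω ≠ ω') : Disjoint (cyl L X y ω) (cyl L X y ω') := by
  rw [Set.disjoint_left]
  intro τ a b
  apply hne
  funext i
  by_cases hi : i ∈ box L
  · exact cls_unique hy h (a i hi) (b i hi)
  · rw [h1.1 i hi, h2.1 i hi]

theorem single_scale {r : ℤ} (hr : 0 ≤ r) : ∃ M : ℝ, 2 ≤ M ∧ ∃ α₀ : ℝ, 0 < α₀ ∧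
    ∀ α : ℝ, 0 < α → α ≤ α₀ → ∃ γ : ℝ, 0 < γ ∧
      ∀ (F : Measure ℝ≥0) [IsProbabilityMeasure F] (X y : ℝ), 0 < y → M * y ≤ X →
        F.real (cls X y 1) = α → F.real (cls X y 2) = 2 * α ^ 2 →
        F.real (cls X y 0 ∪ cls X y 1 ∪ cls X y 2)ᶜ ≤ γ →
        (Measure.infinitePi fun _ : grid.edgeSet => F).real
            {τ | (((4 * r + 2 : ℤ) : ℝ) - 1 / 2) * X < passageTime τ (0, 0) (2 * r + 2, 0)} <
          (Measure.infinitePi fun _ : grid.edgeSet => F).real
            {τ | (((4 * r + 2 : ℤ) : ℝ) - 1 / 2) * X < passageTime τ (0, 0) (2 * r + 1, 0)} := by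
  classical
  obtain ⟨L, hL, hL'⟩ := exists_L hr
  set Ω : Finset (E → ℕ) := (finite_adm L).toFinset with hΩ
  have memΩ : ∀ ω, ω ∈ Ω ↔ Adm L ω := fun ω => by simp [hΩ]
  set b : ℕ := (box L).card with hb
  set K : ℕ := Ω.card with hK
  set C : ℕ := (Cst L r).toNat with hCdef
  have hs := isMin_ωs hr hL
  have hC : (C : ℤ) = Cst L r :=
    Int.toNat_of_nonneg ((Int.natCast_nonneg _).trans hs.2.2)
  refine ⟨(((Icc (-L) L ×ˢ Icc (-L) L).card : ℝ) + 2) * 2, by
    have : (0 : ℝ) ≤ ((Icc (-L) L ×ˢ Icc (-L) L).card : ℝ) := Nat.cast_nonneg _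
    linarith, min (1 / 16) (1 / (8 * (K + 1) * 2 ^ b)), by positivity, fun α hα hα₀ => ?_⟩
  have α1 : α ≤ 1 / 16 := hα₀.trans (min_le_left _ _)
  have α2 : α ≤ 1 / (8 * (K + 1) * 2 ^ b) := hα₀.trans (min_le_right _ _)
  refine ⟨min (1 / 16) ((1 / 2) ^ b * α ^ C / (8 * (b + 1))), by positivity, ?_⟩
  intro F _ X y hy hM h1 h2 hbad
  have γ1 := hbad.trans (min_le_left _ _)
  have γ2 := hbad.trans (min_le_right _ _)
  have hyX : y < X := by
    have : (0 : ℝ) ≤ ((Icc (-L) L ×ˢ Icc (-L) L).card : ℝ) := Nat.cast_nonneg _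
    nlinarith
  have hX : 0 < X := hy.trans hyX
  set P := Measure.infinitePi fun _ : grid.edgeSet => F with hP
  set bad : Set ℝ≥0 := (cls X y 0 ∪ cls X y 1 ∪ cls X y 2)ᶜ with hbadDef
  have mgood : MeasurableSet (cls X y 0 ∪ cls X y 1 ∪ cls X y 2) :=
    ((measurableSet_cls _ _ _).union (measurableSet_cls _ _ _)).union (measurableSet_cls _ _ _)
  set q : ℝ := F.real (cls X y 0) with hq
  have q1 : q ≤ 1 := measureReal_le_one
  have q0 : 3 / 4 ≤ q := by
    have a1 := measureReal_add_measureReal_compl (μ := F) mgood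
    rw [probReal_univ] at a1
    have a2 := measureReal_union_le (μ := F) (cls X y 0 ∪ cls X y 1) (cls X y 2)
    have a3 := measureReal_union_le (μ := F) (cls X y 0) (cls X y 1)
    nlinarith
  have qpos : 0 < q := by linarith
  set u : ℝ := α / q with hu
  set lam : ℝ := 2 * q with hlam
  have upos : 0 < u := div_pos hα qpos
  have uα : α ≤ u := by rw [hu, le_div_iff₀ qpos]; nlinarith
  have u2α : u ≤ 2 * α := by rw [hu, div_le_iff₀ qpos]; nlinarith
  have u1 : u ≤ 1 := by linarith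
  have lam1 : 1 ≤ lam := by linarith
  set Wt : (E → ℕ) → ℝ := fun ω => u ^ total L ω * lam ^ pairs L ω with hWt
  have Pcyl : ∀ ω, Adm L ω → P.real (cyl L X y ω) = q ^ b * Wt ω := by
    intro ω hω
    rw [hP, real_cyl, hWt]
    simp only [total, pairs]
    rw [← Finset.prod_pow_eq_pow_sum, ← Finset.prod_pow_eq_pow_sum, ← Finset.prod_mul_distrib,
      hb, ← Finset.prod_const, ← Finset.prod_mul_distrib]
    refine Finset.prod_congr rfl fun i _ => ?_
    have := hω.2 i
    interval_cases ω i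
    · simp [hq]
    · rw [h1, hu]; simp; field_simp
    · rw [h2, hu, hlam]; simp; field_simp
  set Min : Finset (E → ℕ) := Ω.filter (IsMin L r) with hMin
  set Big : Finset (E → ℕ) := Ω.filter (fun ω => C + 1 ≤ total L ω) with hBig
  have memMin : ∀ ω, ω ∈ Min ↔ IsMin L r ω := fun ω => by
    rw [hMin, mem_filter, memΩ]; exact ⟨fun h => h.2, fun h => ⟨h.1, h⟩⟩
  -- upper bound
  have up : P.real {τ | (((4 * r + 2 : ℤ) : ℝ) - 1 / 2) * X < passageTime τ (0, 0) (2 * r + 2, 0)}
      ≤ b * F.real bad + (q ^ b * ∑ ω ∈ Min, Wt ω + q ^ b * (K * (u ^ (C + 1) * 2 ^ b))) := by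
    have sub : {τ | (((4 * r + 2 : ℤ) : ℝ) - 1 / 2) * X < passageTime τ (0, 0) (2 * r + 2, 0)} ⊆
        (⋃ i ∈ box L, Function.eval (edgeOf i) ⁻¹' bad) ∪
          ((⋃ ω ∈ Min, cyl L X y ω) ∪ ⋃ ω ∈ Big, cyl L X y ω) := by
      intro τ hτ
      by_cases hb' : τ ∈ ⋃ i ∈ box L, Function.eval (edgeOf i) ⁻¹' bad
      · exact Or.inl hb'
      refine Or.inr ?_
      have ex : ∀ i, ∃ k : ℕ, k ≤ 2 ∧ (i ∉ box L → k = 0) ∧
          (i ∈ box L → τ (edgeOf i) ∈ cls X y k) := by
        intro i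
        by_cases hi : i ∈ box L
        · have : τ (edgeOf i) ∈ cls X y 0 ∪ cls X y 1 ∪ cls X y 2 := by
            by_contra hc
            exact hb' (Set.mem_biUnion (Finset.mem_coe.2 hi) hc)
          rcases this with (h | h) | h
          · exact ⟨0, by omega, fun h' => absurd hi h', fun _ => h⟩
          · exact ⟨1, by omega, fun h' => absurd hi h', fun _ => h⟩
          · exact ⟨2, by omega, fun h' => absurd hi h', fun _ => h⟩
        · exact ⟨0, by omega, fun _ => rfl, fun h' => absurd h' hi⟩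
      choose ω w1 w2 w3 using ex
      have hadm : Adm L ω := ⟨w2, w1⟩
      have hc : τ ∈ cyl L X y ω := w3
      by_cases ht : C + 1 ≤ total L ω
      · exact Or.inr (Set.mem_biUnion (Finset.mem_coe.2
          (by rw [hBig, mem_filter, memΩ]; exact ⟨hadm, ht⟩)) hc)
      · have ht' : (total L ω : ℤ) ≤ Cst L r := by omega
        refine Or.inl (Set.mem_biUnion (Finset.mem_coe.2 ((memMin ω).2 ⟨hadm, ?_, ht'⟩)) hc)
        exact good_of_passage τ hy hX hM (fun i hi => (mem_cls.1 (w3 i hi)).2) hτ (by omega) ht' hL'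
    refine (measureReal_mono sub).trans ((measureReal_union_le _ _).trans (add_le_add ?_
      ((measureReal_union_le _ _).trans (add_le_add ?_ ?_))))
    · refine (measureReal_biUnion_finset_le _ _).trans (le_of_eq ?_)
      rw [hb, ← nsmul_eq_mul, ← Finset.sum_const]
      refine Finset.sum_congr rfl fun i _ => ?_
      rw [measureReal_def, measureReal_def, hP,
        (measurePreserving_eval_infinitePi (fun _ : grid.edgeSet => F) (edgeOf i)).measure_preimage
          mgood.compl.nullMeasurableSet]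
    · refine (measureReal_biUnion_finset_le _ _).trans (le_of_eq ?_)
      rw [Finset.mul_sum]
      exact Finset.sum_congr rfl fun ω hω => Pcyl ω ((memMin ω).1 hω).1
    · refine (measureReal_biUnion_finset_le _ _).trans ?_
      have : ∀ ω ∈ Big, P.real (cyl L X y ω) ≤ q ^ b * (u ^ (C + 1) * 2 ^ b) := by
        intro ω hω
        rw [hBig, mem_filter, memΩ] at hω
        rw [Pcyl ω hω.1]
        refine mul_le_mul_of_nonneg_left ?_ (by positivity)
        refine mul_le_mul (pow_le_pow_of_le_one upos.le u1 hω.2) ?_ (by positivity) (by positivity)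
        exact (pow_le_pow_right₀ lam1 (pairs_le hω.1)).trans
          (pow_le_pow_left₀ (by linarith) (by linarith) _)
      refine (Finset.sum_le_card_nsmul _ _ _ this).trans ?_
      rw [nsmul_eq_mul]
      have hk : (Big.card : ℝ) ≤ K := by exact_mod_cast Finset.card_filter_le _ _
      calc (Big.card : ℝ) * (q ^ b * (u ^ (C + 1) * 2 ^ b))
          ≤ K * (q ^ b * (u ^ (C + 1) * 2 ^ b)) := mul_le_mul_of_nonneg_right hk (by positivity)
        _ = q ^ b * (K * (u ^ (C + 1) * 2 ^ b)) := by ring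
  -- lower bound
  have lo : q ^ b * (∑ ω ∈ Min, Wt ω + u ^ C / 2) ≤
      P.real {τ | (((4 * r + 2 : ℤ) : ℝ) - 1 / 2) * X < passageTime τ (0, 0) (2 * r + 1, 0)} := by
    have sub : (⋃ ω ∈ Min, cyl L X y (contract r ω)) ⊆
        {τ | (((4 * r + 2 : ℤ) : ℝ) - 1 / 2) * X < passageTime τ (0, 0) (2 * r + 1, 0)} := by
      intro τ hτ
      simp only [Set.mem_iUnion] at hτ
      obtain ⟨ω, hω, hτ⟩ := hτ
      have hm := (memMin ω).1 hω
      have ha := adm_contract hr hL hm
      have := good_le_passage (good_contract hr hm.2.1) τ hX.le (fun i => by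
        by_cases hi : i ∈ box L
        · exact (mem_cls.1 (hτ i hi)).1
        · rw [ha.1 i hi]; simp)
      show (((4 * r + 2 : ℤ) : ℝ) - 1 / 2) * X < passageTime τ (0, 0) (2 * r + 1, 0)
      nlinarith
    refine le_trans ?_ (measureReal_mono sub)
    rw [measureReal_biUnion_finset (fun ω hω ω' hω' hne => ?_) (fun _ _ => measurableSet_cyl _ _ _ _)]
    · have e : ∑ ω ∈ Min, P.real (cyl L X y (contract r ω)) = q ^ b * ∑ ω ∈ Min, Wt (contract r ω) := by
        rw [Finset.mul_sum]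
        exact Finset.sum_congr rfl fun ω hω => Pcyl _ (adm_contract hr hL ((memMin ω).1 hω))
      rw [e]
      refine mul_le_mul_of_nonneg_left ?_ (by positivity)
      have mono : ∀ ω ∈ Min, 0 ≤ Wt (contract r ω) - Wt ω := by
        intro ω hω
        have ha := ((memMin ω).1 hω).1
        simp only [hWt, total_contract hr hL ha, sub_nonneg]
        refine mul_le_mul_of_nonneg_left (pow_le_pow_right₀ lam1 ?_) (by positivity)
        have := pairs_contract hr hL ha
        omega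
      have one := Finset.single_le_sum mono ((memMin _).2 hs)
      rw [Finset.sum_sub_distrib] at one
      have sp : u ^ C / 2 ≤ Wt (contract r (ωs r)) - Wt (ωs r) := by
        simp only [hWt, total_contract hr hL hs.1]
        have p1 := pairs_contract hr hL hs.1
        rw [ωs_mid hr] at p1
        have p2 : lam ^ (pairs L (ωs r) + 1) ≤ lam ^ pairs L (contract r (ωs r)) :=
          pow_le_pow_right₀ lam1 p1
        have p3 : 1 ≤ lam ^ pairs L (ωs r) := one_le_pow₀ lam1
        have p4 : u ^ C ≤ u ^ total L (ωs r) :=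
          pow_le_pow_of_le_one upos.le u1 (by have := hs.2.2; omega)
        have p5 : 1 / 2 ≤ lam ^ pairs L (contract r (ωs r)) - lam ^ pairs L (ωs r) := by
          rw [pow_succ] at p2
          nlinarith
        have p6 : 0 < u ^ C := by positivity
        nlinarith
      linarith
    · exact cyl_disjoint hy hyX (adm_contract hr hL ((memMin ω).1 hω))
        (adm_contract hr hL ((memMin ω').1 hω'))
        (fun e => hne (contract_inj hr hL ((memMin ω).1 hω) ((memMin ω').1 hω') e))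
  refine lt_of_le_of_lt up (lt_of_lt_of_le ?_ lo)
  have f1 : (K : ℝ) * (u ^ (C + 1) * 2 ^ b) ≤ u ^ C / 4 := by
    have g1 : α * (8 * (K + 1) * 2 ^ b) ≤ 1 := by
      rwa [le_div_iff₀ (by positivity)] at α2
    have g2 : (K : ℝ) * (u * 2 ^ b) ≤ 1 / 4 := by
      have : (0 : ℝ) < 2 ^ b := by positivity
      have : (0 : ℝ) ≤ K := Nat.cast_nonneg _
      have g3 : (K : ℝ) * (u * 2 ^ b) ≤ K * (2 * α * 2 ^ b) := by gcongr
      nlinarith
    calc (K : ℝ) * (u ^ (C + 1) * 2 ^ b) = u ^ C * (K * (u * 2 ^ b)) := by ring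
      _ ≤ u ^ C * (1 / 4) := mul_le_mul_of_nonneg_left g2 (by positivity)
      _ = u ^ C / 4 := by ring
  have f2 : (b : ℝ) * F.real bad < q ^ b * (u ^ C / 4) := by
    have g1 : (1 / 2 : ℝ) ^ b * α ^ C ≤ q ^ b * u ^ C :=
      mul_le_mul (pow_le_pow_left₀ (by norm_num) (by linarith) _) (pow_le_pow_left₀ hα.le uα _)
        (by positivity) (by positivity)
    have g2 : F.real bad * (8 * (b + 1)) ≤ (1 / 2) ^ b * α ^ C := by
      rwa [le_div_iff₀ (by positivity)] at γ2
    have g3 : 0 ≤ F.real bad := measureReal_nonneg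
    have g4 : 0 < q ^ b * u ^ C := by positivity
    nlinarith
  have f3 := mul_le_mul_of_nonneg_left f1 (by positivity : 0 ≤ q ^ b)
  nlinarith

end Pool.Agent.Lib.MP_79314c_pr
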