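import Pool.Agent.Lib.MP_79314c_pr.Defs
import Pool.Agent.Lib.MP_79314c_pr.Round

open scoped NNReal

namespace Pool.Agent.Lib.MP_79314c_pr

theorem grid_adj {u v : ℤ × ℤ} : grid.Adj u v ↔ |u.1 - v.1| + |u.2 - v.2| = 1 := Iff.rfl

theorem adj_h (x y : ℤ) : grid.Adj (x, y) (x + 1, y) := by rw [grid_adj]; simp

theorem adj_v (x y : ℤ) : grid.Adj (x, y) (x, y + 1) := by rw [grid_adj]; simp

/-- the edge with a given label -/
def edgeOf : E → grid.edgeSet
  | (true, x, y) => ⟨s((x, y), (x + 1, y)), adj_h x y⟩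
  | (false, x, y) => ⟨s((x, y), (x, y + 1)), adj_v x y⟩

theorem edgeOf_injective : Function.Injective edgeOf := by
  rintro ⟨b, x, y⟩ ⟨b', x', y'⟩ h
  cases b <;> cases b' <;> simp only [edgeOf, Subtype.mk.injEq, Sym2.eq_iff, Prod.mk.injEq] at h ⊢ <;>
    first | omega | (simp only [true_and]; omega)

theorem reach (u : ℤ × ℤ) : grid.Reachable (0, 0) u := by
  obtain ⟨x, y⟩ := u
  have h1 : grid.Reachable (0, 0) (x, 0) := by
    induction x using Int.induction_on with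
    | zero => rfl
    | succ n ih => exact ih.trans (adj_h _ _).reachable
    | pred n ih =>
      refine ih.trans ?_
      have := (adj_h (-(n : ℤ) - 1) 0).symm.reachable
      rwa [sub_add_cancel] at this
  refine h1.trans ?_
  induction y using Int.induction_on with
  | zero => rfl
  | succ n ih => exact ih.trans (adj_v _ _).reachable
  | pred n ih =>
    refine ih.trans ?_
    have := (adj_v x (-(n : ℤ) - 1)).symm.reachable
    rwa [sub_add_cancel] at this

instance walkNonempty (u : ℤ × ℤ) : Nonempty (grid.Walk (0, 0) u) := reach u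

theorem passage_self (τ : grid.edgeSet → ℝ≥0) (u : ℤ × ℤ) : passageTime τ u u = 0 := by
  refine le_antisymm ?_ zero_le
  exact (ciInf_le (OrderBot.bddBelow _) (SimpleGraph.Walk.nil : grid.Walk u u)).trans (by simp)

theorem passage_step (τ : grid.edgeSet → ℝ≥0) {a b : ℤ × ℤ} (h : grid.Adj a b) :
    passageTime τ (0, 0) b ≤ passageTime τ (0, 0) a + τ ⟨s(a, b), h⟩ := by
  rw [← tsub_le_iff_right]
  refine le_ciInf fun w => ?_
  rw [tsub_le_iff_right]
  refine (ciInf_le (OrderBot.bddBelow _) (w.concat h)).trans (le_of_eq ?_)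
  simp [SimpleGraph.Walk.darts_concat]

theorem passage_abs (τ : grid.edgeSet → ℝ≥0) {a b : ℤ × ℤ} (h : grid.Adj a b) :
    |(passageTime τ (0, 0) b : ℝ) - passageTime τ (0, 0) a| ≤ τ ⟨s(a, b), h⟩ := by
  have a1 := passage_step τ h
  have a2 := passage_step τ h.symm
  have e : (⟨s(b, a), h.symm⟩ : grid.edgeSet) = ⟨s(a, b), h⟩ := Subtype.ext Sym2.eq_swap
  rw [e] at a2
  have b1 : (passageTime τ (0, 0) b : ℝ) ≤ passageTime τ (0, 0) a + τ ⟨s(a, b), h⟩ := by
    exact_mod_cast a1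
  have b2 : (passageTime τ (0, 0) a : ℝ) ≤ passageTime τ (0, 0) b + τ ⟨s(a, b), h⟩ := by
    exact_mod_cast a2
  rw [abs_le]; constructor <;> linarith

theorem pot_le_walk (τ : grid.edgeSet → ℝ≥0) (ψ : ℤ × ℤ → ℝ)
    (hψ : ∀ a b (h : grid.Adj a b), ψ b - ψ a ≤ τ ⟨s(a, b), h⟩) {u v : ℤ × ℤ}
    (w : grid.Walk u v) :
    ψ v - ψ u ≤ ((w.darts.map fun d => τ ⟨d.edge, d.edge_mem⟩).sum : ℝ≥0) := by
  induction w with
  | nil => simp
  | cons h p ih =>
    have := hψ _ _ h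
    simp only [SimpleGraph.Walk.darts_cons, List.map_cons, List.sum_cons, NNReal.coe_add,
      SimpleGraph.Dart.edge_mk]
    linarith

theorem pot_le_passage (τ : grid.edgeSet → ℝ≥0) (ψ : ℤ × ℤ → ℝ)
    (hψ : ∀ a b (h : grid.Adj a b), ψ b - ψ a ≤ τ ⟨s(a, b), h⟩) (v : ℤ × ℤ) :
    ψ v - ψ (0, 0) ≤ passageTime τ (0, 0) v := by
  rw [passageTime, NNReal.coe_iInf]
  exact le_ciInf fun w => pot_le_walk τ ψ hψ w

theorem good_le_passage {m t : ℤ} {ω : E → ℕ} (hg : Good m t ω) (τ : grid.edgeSet → ℝ≥0)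
    {X : ℝ} (hX : 0 ≤ X) (hτ : ∀ i, X * ω i ≤ τ (edgeOf i)) :
    X * t ≤ passageTime τ (0, 0) (m, 0) := by
  obtain ⟨φ, hp, h0, hm⟩ := hg
  have kh : ∀ x y, |X * (φ (x + 1) y : ℝ) - X * φ x y| ≤ τ (edgeOf (true, x, y)) := by
    intro x y
    rw [← mul_sub, abs_mul, abs_of_nonneg hX]
    refine le_trans (mul_le_mul_of_nonneg_left ?_ hX) (hτ _)
    exact_mod_cast hp.1 x y
  have kv : ∀ x y, |X * (φ x (y + 1) : ℝ) - X * φ x y| ≤ τ (edgeOf (false, x, y)) := by
    intro x y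
    rw [← mul_sub, abs_mul, abs_of_nonneg hX]
    refine le_trans (mul_le_mul_of_nonneg_left ?_ hX) (hτ _)
    exact_mod_cast hp.2 x y
  have key := pot_le_passage τ (fun z => X * (φ z.1 z.2 : ℝ)) ?_ (m, 0)
  · have a1 : (φ 0 0 : ℝ) ≤ 0 := by exact_mod_cast h0
    have a2 : (t : ℝ) ≤ φ m 0 := by exact_mod_cast hm
    simp only at key
    nlinarith
  · rintro ⟨x, y⟩ ⟨x', y'⟩ h
    have h' := h
    rw [grid_adj] at h'
    simp only [abs_eq_max_neg] at h'
    rcases (by omega : (x' = x + 1 ∧ y' = y) ∨ (x = x' + 1 ∧ y' = y) ∨ (x' = x ∧ y' = y + 1) ∨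
      (x' = x ∧ y = y' + 1)) with ⟨rfl, rfl⟩ | ⟨rfl, rfl⟩ | ⟨rfl, rfl⟩ | ⟨rfl, rfl⟩
    · exact (le_abs_self _).trans (kh _ _)
    · have e : (⟨s((x' + 1, y'), (x', y')), h⟩ : grid.edgeSet) = edgeOf (true, x', y') :=
        Subtype.ext Sym2.eq_swap
      rw [e]
      have := kh x' y'
      rw [abs_sub_comm] at this
      exact (le_abs_self _).trans this
    · exact (le_abs_self _).trans (kv _ _)
    · have e : (⟨s((x', y' + 1), (x', y')), h⟩ : grid.edgeSet) = edgeOf (false, x', y') :=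
        Subtype.ext Sym2.eq_swap
      rw [e]
      have := kv x' y'
      rw [abs_sub_comm] at this
      exact (le_abs_self _).trans this

theorem good_of_passage {L m t C : ℤ} {ω : E → ℕ} (τ : grid.edgeSet → ℝ≥0) {X y : ℝ}
    (hy : 0 < y) (hX : 0 < X)
    (hN : (((Finset.Icc (-L) L ×ˢ Finset.Icc (-L) L).card : ℝ) + 2) * 2 * y ≤ X)
    (hτ : ∀ i ∈ box L, (τ (edgeOf i) : ℝ) ≤ X * ω i + y)
    (ht : ((t : ℝ) - 1 / 2) * X < passageTime τ (0, 0) (m, 0)) (hm : 0 ≤ m)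
    (hC : (total L ω : ℤ) ≤ C) (hL : m + C < L) : Good m t ω := by
  refine good_of_real (L := L) (C := C) (fun x y => (passageTime τ (0, 0) (x, y) : ℝ) / X)
    (δ := y / X) (div_pos hy hX) ?_ ?_ ?_ ?_ ?_ hm hC hL
  · rw [← mul_div_assoc, div_le_iff₀ hX]; linarith
  · intro a b hi
    have k := (passage_abs τ (adj_h a b)).trans (hτ _ hi)
    rw [← sub_div, abs_div, abs_of_pos hX, div_le_iff₀ hX, add_mul, div_mul_cancel₀ _ hX.ne',
      mul_comm]
    exact k
  · intro a b hi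
    have k := (passage_abs τ (adj_v a b)).trans (hτ _ hi)
    rw [← sub_div, abs_div, abs_of_pos hX, div_le_iff₀ hX, add_mul, div_mul_cancel₀ _ hX.ne',
      mul_comm]
    exact k
  · simp [passage_self]
  · rw [lt_div_iff₀ hX]; exact ht

end Pool.Agent.Lib.MP_79314c_pr
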